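import Pool.Agent.Lib.MP_092512_nt.TT.D.T0
import Pool.Agent.Lib.MP_092512_nt.TT.E.Pse

/-!
# TTD / Dec (50 minutes): decomposition of the sum of the frame; the sets `BP` and `PSE`

`T' = wD T (W0^2 D')`, `d = W0^2 D' |h| = T'.D |T'.h|`, `sh s X d = T'.Y X` for `X > d` (`pse_sh` in `TT/E/Pse.lean`).
PROOF of `ap_dec`. `cnt = ∑_t ∑_t' 1` over `t ∣ X`, `t' ∣ Y`, not `Bd`; exchange the sums; for fixed `t, t'` the map `X ↦ l X` sends the `X` with different signs injectively into the disjoint union over `r < W0` of `BP T' W0 u r t t' 1 ∪ BP T' W0 u r t t' (-1)` (`r = l X % W0`; `lam` is `1` or `-1`).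
PROOF of `bp_pse`: `Rg T n ↔ Rough T.y0 n` (`Rough` excludes `0`: all primes divide `0`), `ext X`, `simp`.
-/

set_option autoImplicit false

open Finset

namespace Pool.Agent.Lib.TTD

open Pool.Agent.Lib.TTC (MS Msr)
open Pool.Agent.Lib.TCF (TUP rho)
open Pool.Agent.Lib.RG (Rough)
open Pool.Agent.Lib.MP_45349e_nt.LS (lam)

private theorem dec_pm (n : ℕ) : lam n = 1 ∨ lam n = -1 := by
  unfold lam
  exact neg_one_pow_eq_or ℝ _

private theorem dec_sh {s : Bool} {h : ℤ} (hh : h ≠ 0) (hs : s = true ↔ 0 < h) (D X : ℕ) :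
    TT.sh s X (D * h.natAbs) = ((X : ℤ) - (D : ℤ) * h).toNat := by
  unfold TT.sh
  rcases lt_or_gt_of_ne hh with h1 | h1
  · have h2 : s = false := by
      rw [← Bool.not_eq_true]
      intro h3
      have := hs.1 h3
      omega
    rw [h2]
    have h3 : (X : ℤ) - (D : ℤ) * h = ((X + D * h.natAbs : ℕ) : ℤ) := by
      push_cast
      rw [abs_of_neg h1]
      ring
    rw [h3, Int.toNat_natCast]
    rfl
  · have h2 : s = true := hs.2 h1
    rw [h2]
    have h3 : (D : ℤ) * h = ((D * h.natAbs : ℕ) : ℤ) := by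
      push_cast
      rw [abs_of_pos h1]
    rw [h3, ← Int.toNat_sub]
    rfl

private theorem dec_rg {T : TTC.Dat} {n : ℕ} (h : 0 < n) : Rg T n ↔ Rough T.y0 n := by
  unfold Rg Rough
  constructor
  · rintro ⟨-, h2⟩ p hp hd
    by_contra hc
    exact h2 p hp (by omega) hd
  · intro h2
    refine ⟨h, fun p hp hpy hd => ?_⟩
    have := h2 p hp hd
    omega

open Classical in
private theorem dec_ps (T : TTC.Dat) (W0 D' yc u r t t' : ℕ) :
    PS (wD T (W0 ^ 2 * D') yc) W0 u r t t' = TTE.PSE W0 D' T.l T.y0 T.h u (2 * u) r t t' := by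
  unfold PS TTE.PSE
  refine filter_congr fun X hX => ?_
  rw [mem_Ioc] at hX
  have hX0 : 0 < X := by omega
  have hY : (wD T (W0 ^ 2 * D') yc).Y X = ((X : ℤ) - ((W0 ^ 2 * D' : ℕ) : ℤ) * T.h).toNat := rfl
  unfold CR
  rw [hY]
  constructor
  · rintro ⟨⟨⟨X', h1, h2⟩, h3, h4⟩, h5, h6, h7⟩
    exact ⟨⟨X', h1, (dec_rg h2.1).1 h2⟩, h3, (dec_rg h4.1).1 h4, h5, h6, h7⟩
  · rintro ⟨⟨X', h1, h2⟩, h3, h4, h5, h6, h7⟩
    have h8 : 0 < X' := by
      rcases Nat.eq_zero_or_pos X' with h9 | h9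
      · rw [h9, Nat.mul_zero] at h1
        omega
      · exact h9
    have h9 : 0 < ((X : ℤ) - ((W0 ^ 2 * D' : ℕ) : ℤ) * T.h).toNat := by
      rw [Int.lt_toNat]
      push_cast at h3 ⊢
      linarith
    exact ⟨⟨⟨X', h1, (dec_rg (T := wD T (W0 ^ 2 * D') yc) h8).2 h2⟩, h3, (dec_rg (T := wD T (W0 ^ 2 * D') yc) h9).2 h4⟩, h5, h6, h7⟩

open Classical in
theorem bp_pse (T : TTC.Dat) (W0 D' yc u r t t' : ℕ) :
    (((BP (wD T (W0 ^ 2 * D') yc) W0 u r t t' 1).card : ℝ) =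
      ((TTE.PSE W0 D' T.l T.y0 T.h u (2 * u) r t t').filter fun X => lam X = -1 ∧ lam ((X : ℤ) - ((W0 ^ 2 * D' : ℕ) : ℤ) * T.h).toNat = 1).card) ∧
    (((BP (wD T (W0 ^ 2 * D') yc) W0 u r t t' (-1)).card : ℝ) =
      ((TTE.PSE W0 D' T.l T.y0 T.h u (2 * u) r t t').filter fun X => lam X = 1 ∧ lam ((X : ℤ) - ((W0 ^ 2 * D' : ℕ) : ℤ) * T.h).toNat = -1).card) := by
  unfold BP
  rw [dec_ps]
  constructor
  · rfl
  · simp only [neg_neg]
    rfl

/-- the sets do not depend on the class `yc` -/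
theorem bp_yc (T : TTC.Dat) (D yc W1 u r t t' : ℕ) (x : ℝ) : BP (wD T D yc) W1 u r t t' x = BP (wD T D 0) W1 u r t t' x := rfl

/-- no number in a class which is not coprime to `W1` -/
theorem bp_emp {T : TTC.Dat} {W1 u r t t' : ℕ} {x : ℝ} (hD : W1 ∣ T.D) (hd : ∀ p : ℕ, p.Prime → p ∣ T.D * T.h.natAbs → p ≤ T.y0)
    (hr : ¬ r.Coprime W1) : BP T W1 u r t t' x = ∅ := by
  classical
  rw [eq_empty_iff_forall_notMem]
  intro X hX
  unfold BP PS at hX
  rw [mem_filter, mem_filter] at hX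
  obtain ⟨⟨-, ⟨-, h2, h3⟩, -, -, h4⟩, -⟩ := hX
  obtain ⟨p, hp, hpr, hpW⟩ := Nat.Prime.not_coprime_iff_dvd.1 hr
  refine h3.2 p hp (hd p hp (Dvd.dvd.mul_right (hpW.trans hD) _)) ?_
  have h5 : (p : ℤ) ∣ ((T.Y X : ℕ) : ℤ) := by
    have h6 : ((T.Y X : ℕ) : ℤ) = (X : ℤ) - T.D * T.h := by
      unfold TTC.Dat.Y
      rw [Int.toNat_of_nonneg (by linarith)]
    rw [h6]
    refine dvd_sub ?_ (Dvd.dvd.mul_right (Int.natCast_dvd_natCast.2 (hpW.trans hD)) _)
    exact Int.natCast_dvd_natCast.2 ((Nat.ModEq.dvd_iff (h4.of_dvd hpW) dvd_rfl).2 hpr)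
  exact Int.natCast_dvd_natCast.1 h5

open Classical in
theorem ap_dec {P : TT.Par} {D : TT.Dat} {T : TTC.Dat} {W0 D' u : ℕ} (hW : 0 < W0) (hs : P.s = true ↔ 0 < T.h) (hh : T.h ≠ 0) (hey : T.y0 = D.y0)
    (hl : 0 < T.l) (hly : ∀ p : ℕ, p.Prime → p ∣ T.l → p ≤ T.y0) (hd : W0 ^ 2 * D' * T.h.natAbs < u)
    (hX : ∀ t ∈ TUP D.BX, ∀ p : ℕ, p.Prime → p ∣ t → D.y0 < p) (Bd : ℕ → ℕ → ℕ → Prop) :
    ∑ X ∈ (Icc 1 (2 * u)).filter (fun X => u < T.l * X ∧ T.l * X ≤ 2 * u),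
      (if lam (T.l * X) ≠ lam (TT.sh P.s (T.l * X) (W0 ^ 2 * D' * T.h.natAbs)) then TT.cnt D Bd T.l X (TT.sh P.s (T.l * X) (W0 ^ 2 * D' * T.h.natAbs)) else 0) ≤
    ∑ r ∈ range W0, ∑ t ∈ TUP D.BX, ∑ t' ∈ (TUP D.BY).filter (fun t' => ¬ Bd T.l t t'),
      (((BP (wD T (W0 ^ 2 * D') 0) W0 u r t t' 1).card : ℝ) + (BP (wD T (W0 ^ 2 * D') 0) W0 u r t t' (-1)).card) := by
  set T' := wD T (W0 ^ 2 * D') 0 with hT'
  set A := (Icc 1 (2 * u)).filter (fun X => u < T.l * X ∧ T.l * X ≤ 2 * u) with hA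
  have hY : ∀ X, TT.sh P.s (T.l * X) (W0 ^ 2 * D' * T.h.natAbs) = T'.Y (T.l * X) := fun X => dec_sh hh hs _ _
  have h1 : ∀ X ∈ A, (if lam (T.l * X) ≠ lam (TT.sh P.s (T.l * X) (W0 ^ 2 * D' * T.h.natAbs)) then
      TT.cnt D Bd T.l X (TT.sh P.s (T.l * X) (W0 ^ 2 * D' * T.h.natAbs)) else 0) =
      ∑ t ∈ TUP D.BX, ∑ t' ∈ (TUP D.BY).filter (fun t' => ¬ Bd T.l t t'),
        (if lam (T.l * X) ≠ lam (T'.Y (T.l * X)) ∧ (Rough D.y0 X ∧ Rough D.y0 (T'.Y (T.l * X))) ∧ t ∣ X ∧ t' ∣ T'.Y (T.l * X) then (1 : ℝ) else 0) := by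
    intro X _
    rw [hY]
    unfold TT.cnt
    by_cases a1 : lam (T.l * X) ≠ lam (T'.Y (T.l * X))
    · by_cases a2 : Rough D.y0 X ∧ Rough D.y0 (T'.Y (T.l * X))
      · rw [if_pos a1, if_pos a2, sum_filter]
        refine sum_congr rfl fun t _ => ?_
        by_cases a3 : t ∣ X
        · rw [if_pos a3, card_filter, sum_filter]
          push_cast
          refine sum_congr rfl fun t' _ => ?_
          by_cases a4 : Bd T.l t t'
          · rw [if_neg (fun h => h.2 a4), if_neg (fun h => h a4)]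
          · rw [if_pos a4]
            by_cases a5 : t' ∣ T'.Y (T.l * X)
            · rw [if_pos ⟨a5, a4⟩, if_pos ⟨a1, a2, a3, a5⟩]
            · rw [if_neg (fun h => a5 h.1), if_neg (fun h => a5 h.2.2.2)]
        · rw [if_neg a3]
          symm
          exact sum_eq_zero fun t' _ => if_neg fun h => a3 h.2.2.1
      · rw [if_pos a1, if_neg a2]
        symm
        exact sum_eq_zero fun t _ => sum_eq_zero fun t' _ => if_neg fun h => a2 h.2.1
    · rw [if_neg a1]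
      symm
      exact sum_eq_zero fun t _ => sum_eq_zero fun t' _ => if_neg fun h => a1 h.1
  rw [sum_congr rfl h1, sum_comm, sum_comm (s := range W0)]
  refine sum_le_sum fun t _ => ?_
  rw [sum_comm, sum_comm (s := range W0)]
  refine sum_le_sum fun t' _ => ?_
  rw [← sum_filter, sum_const, nsmul_eq_mul, mul_one]
  have h2 : (A.filter fun X => lam (T.l * X) ≠ lam (T'.Y (T.l * X)) ∧ (Rough D.y0 X ∧ Rough D.y0 (T'.Y (T.l * X))) ∧ t ∣ X ∧ t' ∣ T'.Y (T.l * X)).card ≤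
      ((range W0).biUnion fun r => BP T' W0 u r t t' 1 ∪ BP T' W0 u r t t' (-1)).card := by
    refine card_le_card_of_injOn (fun X => T.l * X) ?_ ?_
    · intro X hX
      rw [mem_coe, mem_filter, hA, mem_filter, mem_Icc] at hX
      obtain ⟨⟨⟨b1, b2⟩, b3, b4⟩, b5, ⟨b6, b7⟩, b8, b9⟩ := hX
      have hlt : (T'.D : ℤ) * T'.h < ((T.l * X : ℕ) : ℤ) := by
        have c1 : ((W0 ^ 2 * D' : ℕ) : ℤ) * T.h ≤ ((W0 ^ 2 * D' * T.h.natAbs : ℕ) : ℤ) := by
          push_cast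
          exact mul_le_mul_of_nonneg_left (le_abs_self _) (by positivity)
        have c2 : ((W0 ^ 2 * D' * T.h.natAbs : ℕ) : ℤ) < ((T.l * X : ℕ) : ℤ) := by exact_mod_cast hd.trans b3
        exact lt_of_le_of_lt c1 c2
      have hYp : 0 < T'.Y (T.l * X) := by
        show 0 < (((T.l * X : ℕ) : ℤ) - (T'.D : ℤ) * T'.h).toNat
        rw [Int.lt_toNat]
        push_cast at hlt ⊢
        linarith
      have hPS : T.l * X ∈ PS T' W0 u (T.l * X % W0) t t' := by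
        unfold PS
        rw [mem_filter, mem_Ioc]
        refine ⟨⟨b3, b4⟩, ⟨⟨X, rfl, ?_⟩, hlt, ?_⟩, b8.mul_left _, b9, (Nat.mod_modEq _ _).symm⟩
        · refine (dec_rg (T := T') (by omega)).2 ?_
          show Rough T.y0 X
          rw [hey]
          exact b6
        · refine (dec_rg (T := T') hYp).2 ?_
          show Rough T.y0 _
          rw [hey]
          exact b7
      simp only [mem_coe, mem_biUnion, mem_range, mem_union]
      refine ⟨T.l * X % W0, Nat.mod_lt _ hW, ?_⟩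
      unfold BP
      rw [mem_filter, mem_filter]
      rcases dec_pm (T.l * X) with c1 | c1 <;> rcases dec_pm (T'.Y (T.l * X)) with c2 | c2
      · exact absurd (c1.trans c2.symm) b5
      · right
        exact ⟨hPS, by rw [c1, neg_neg], c2⟩
      · left
        exact ⟨hPS, c1, c2⟩
      · exact absurd (c1.trans c2.symm) b5
    · intro X _ X' _ hXX
      exact Nat.eq_of_mul_eq_mul_left hl hXX
  have h3 : ((range W0).biUnion fun r => BP T' W0 u r t t' 1 ∪ BP T' W0 u r t t' (-1)).card ≤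
      ∑ r ∈ range W0, ((BP T' W0 u r t t' 1).card + (BP T' W0 u r t t' (-1)).card) :=
    card_biUnion_le.trans (sum_le_sum fun r _ => card_union_le _ _)
  have h4 := h2.trans h3
  have h5 : ((A.filter fun X => lam (T.l * X) ≠ lam (T'.Y (T.l * X)) ∧ (Rough D.y0 X ∧ Rough D.y0 (T'.Y (T.l * X))) ∧ t ∣ X ∧ t' ∣ T'.Y (T.l * X)).card : ℝ) ≤
      ((∑ r ∈ range W0, ((BP T' W0 u r t t' 1).card + (BP T' W0 u r t t' (-1)).card) : ℕ) : ℝ) := by exact_mod_cast h4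
  refine h5.trans ?_
  push_cast
  exact le_rfl

end Pool.Agent.Lib.TTD
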