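import Pool.Agent.Lib.MP_092512_nt.TT.D.T0
import Pool.Agent.Lib.MP_7b7e48_nt.RG.NUM

/-!
# TTD / Nm (50 minutes): numerics

`hm_ok`: `D = W1^2 D'`, `D |h| ≤ K^C_D`, `y0 = ⌊K^Cp⌋`, `Cp ≥ C_D + 10`, `u ≥ x^(1 - d0)`, `l ≤ 4 K^C1`: `d0 + δ1 ≤ 1/2`, so `N^(-δ1) u / l ≥ x^(1/2) / (4 K^C1) ≥ 1`. `fin_num`: `sqrt (ρ (ε ρ + N^(-δ2)) w^2) ≤ ..`.
-/

set_option autoImplicit false

open Finset

namespace Pool.Agent.Lib.TTD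

open Pool.Agent.Lib.TTC (MS Msr)
open Pool.Agent.Lib.TCF (TUP rho)
open Pool.Agent.Lib.RG (Rough)
open Pool.Agent.Lib.MP_45349e_nt.LS (lam)

theorem nm_l {P : TT.Par} {x l : ℕ} (hK : 1 ≤ Real.log x) (h : TT.Mul P x l) :
    1 ≤ l ∧ (l : ℝ) ≤ 4 * (Real.log x) ^ P.C1 := by
  rcases h with h | ⟨h1, h2, h3, h4⟩
  · subst h
    refine ⟨le_refl _, ?_⟩
    have := one_le_pow₀ (n := P.C1) hK
    push_cast
    linarith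
  · exact ⟨h1.one_lt.le, h3⟩

theorem hm_ok (P : TT.Par) (hP : P.Ok) (W0 W1 : ℕ) (hW : 0 < W1) {δ0 δ1 δm δ2 e3 : ℝ} (hE : Exps4 P.d0 δ0 δ1 δm δ2 e3) :
    ∃ x0 : ℕ, ∀ (S : MS) (T : TTC.Dat) (D : TT.Dat) (y1 : ℕ) (Bd : ℕ → ℕ → Prop) (ε s u : ℝ), x0 ≤ D.x → T.h ≠ 0 →
    Brg4 P D S T W0 W1 y1 Bd δ0 δ1 δm δ2 ε e3 s u →
    ∀ n D' yc : ℕ, (D.x : ℝ) ^ (1 - P.d0) ≤ n → n ≤ D.x → 0 < D' → ((W1 ^ 2 * D' * T.h.natAbs : ℕ) : ℝ) ≤ (Real.log D.x) ^ (P.Cf + P.C1 + 240) →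
    HM S (wD T (W1 ^ 2 * D') yc) n δ1 := by
  have a1 := RH.ev_log_pow P.C1 (1 / 4) (by norm_num) 4 (by norm_num)
  have a2 := RH.ev_log_pow (P.Cf + P.C1 + 240) (1 / 4) (by norm_num) 6 (by norm_num)
  have a3 := RH.ev_log_ge 4
  obtain ⟨x0, hx0⟩ := (a1.and (a2.and a3)).exists_forall_of_atTop
  refine ⟨max x0 2, ?_⟩
  intro S T D y1 Bd ε s u hx hh hB n D' yc hn hnx hD' hDh
  obtain ⟨g1, g2, g3⟩ := hx0 D.x ((le_max_left _ _).trans hx)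
  have hx2 : 2 ≤ D.x := (le_max_right _ _).trans hx
  have hK1 : 1 ≤ Real.log D.x := by linarith
  obtain ⟨l1, l2⟩ := nm_l hK1 hB.mul
  have hxr : (2 : ℝ) ≤ D.x := by exact_mod_cast hx2
  have hx1 : (1 : ℝ) ≤ D.x := by linarith
  have hxp : (0 : ℝ) < D.x := by linarith
  have hq1 : (D.x : ℝ) ^ (1 / 4 : ℝ) ≤ D.x := by
    calc (D.x : ℝ) ^ (1 / 4 : ℝ) ≤ (D.x : ℝ) ^ (1 : ℝ) := Real.rpow_le_rpow_of_exponent_le hx1 (by norm_num)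
      _ = D.x := Real.rpow_one _
  have hd0 := hP.d0
  have hd1 := hP.d1
  -- primes up to `K ^ C`
  have hyk : ∀ p : ℕ, (p : ℝ) ≤ (Real.log D.x) ^ P.Cp → p ≤ T.y0 := by
    intro p hp
    rw [hB.ey, hB.ctx.y0]
    exact Nat.le_floor hp
  have hkp : (Real.log D.x) ^ (P.Cf + P.C1 + 240) ≤ (Real.log D.x) ^ P.Cp :=
    pow_le_pow_right₀ hK1 (by have := hP.cp; omega)
  have hlp : 4 * (Real.log D.x) ^ P.C1 ≤ (Real.log D.x) ^ P.Cp := by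
    calc 4 * (Real.log D.x) ^ P.C1 ≤ Real.log D.x * (Real.log D.x) ^ P.C1 :=
          mul_le_mul_of_nonneg_right g3 (by positivity)
      _ = (Real.log D.x) ^ (P.C1 + 1) := by ring
      _ ≤ (Real.log D.x) ^ P.Cp := pow_le_pow_right₀ hK1 (by have := hP.cp; omega)
  have hhp : 0 < T.h.natAbs := Int.natAbs_pos.2 hh
  have hDpos : 0 < W1 ^ 2 * D' * T.h.natAbs := by positivity
  have hn1 : (D.x : ℝ) ^ (1 / 2 : ℝ) ≤ n := by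
    refine le_trans (Real.rpow_le_rpow_of_exponent_le hx1 ?_) hn
    linarith
  refine ⟨hB.sets, ?_, l1, ?_, ?_, ?_, ?_, ?_, ?_⟩
  · show 2 ≤ T.N
    rw [hB.TN]
    exact hx2
  · show T.l ≤ T.N
    rw [hB.TN]
    have : (T.l : ℝ) ≤ D.x := l2.trans (g1.trans hq1)
    exact_mod_cast this
  · intro p hp hpl
    refine hyk p ?_
    have h1 : p ≤ T.l := Nat.le_of_dvd l1 hpl
    have h2 : (p : ℝ) ≤ T.l := by exact_mod_cast h1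
    exact h2.trans (l2.trans hlp)
  · intro p hp hpd
    refine hyk p ?_
    have h1 : p ≤ W1 ^ 2 * D' * T.h.natAbs := Nat.le_of_dvd hDpos hpd
    have h2 : (p : ℝ) ≤ ((W1 ^ 2 * D' * T.h.natAbs : ℕ) : ℝ) := by exact_mod_cast h1
    exact h2.trans (hDh.trans hkp)
  · show 5 * (W1 ^ 2 * D' * T.h.natAbs) < n
    have h1 : (5 : ℝ) * ((W1 ^ 2 * D' * T.h.natAbs : ℕ) : ℝ) < n := by
      have h2 : (0 : ℝ) < (Real.log D.x) ^ (P.Cf + P.C1 + 240) := by positivity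
      have h3 : (D.x : ℝ) ^ (1 / 4 : ℝ) ≤ (D.x : ℝ) ^ (1 / 2 : ℝ) := Real.rpow_le_rpow_of_exponent_le hx1 (by norm_num)
      calc (5 : ℝ) * ((W1 ^ 2 * D' * T.h.natAbs : ℕ) : ℝ) ≤ 5 * (Real.log D.x) ^ (P.Cf + P.C1 + 240) := by linarith
        _ < 6 * (Real.log D.x) ^ (P.Cf + P.C1 + 240) := by linarith
        _ ≤ (D.x : ℝ) ^ (1 / 4 : ℝ) := g2
        _ ≤ n := h3.trans hn1
    exact_mod_cast h1
  · show n ≤ T.N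
    rw [hB.TN]
    exact hnx
  · show 1 ≤ (T.N : ℝ) ^ (-δ1) * ((n : ℝ) / T.l)
    rw [hB.TN]
    have hlr : (0 : ℝ) < T.l := by exact_mod_cast l1
    rw [mul_div_assoc', le_div_iff₀ hlr, one_mul]
    have h1 : (T.l : ℝ) ≤ (D.x : ℝ) ^ (1 / 4 : ℝ) := l2.trans g1
    refine h1.trans ?_
    calc (D.x : ℝ) ^ (1 / 4 : ℝ) ≤ (D.x : ℝ) ^ (-δ1 + (1 - P.d0)) := by
          refine Real.rpow_le_rpow_of_exponent_le hx1 ?_
          have := hE.a1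
          linarith
      _ = (D.x : ℝ) ^ (-δ1) * (D.x : ℝ) ^ (1 - P.d0) := Real.rpow_add hxp _ _
      _ ≤ (D.x : ℝ) ^ (-δ1) * n := mul_le_mul_of_nonneg_left hn (by positivity)

/-- the three parts under the root -/
theorem nm_root {ρ ε r1 r2 w L : ℝ} (hρ : 0 ≤ ρ) (hw0 : 0 ≤ w) (hL : 0 < L)
    (h1 : 3 * ε * L ^ 2 ≤ 1) (h2 : 3 * r1 * L ^ 2 ≤ ρ) (h3 : 3 * r2 * L ^ 2 ≤ ρ * w ^ 2) :
    Real.sqrt (ρ * ((ε * ρ + r1) * w ^ 2 + r2)) ≤ ρ * w / L := by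
  rw [Real.sqrt_le_iff]
  refine ⟨by positivity, ?_⟩
  rw [div_pow, le_div_iff₀ (by positivity)]
  have p1 : 3 * ε * L ^ 2 * (ρ ^ 2 * w ^ 2) ≤ 1 * (ρ ^ 2 * w ^ 2) := mul_le_mul_of_nonneg_right h1 (by positivity)
  have p2 : 3 * r1 * L ^ 2 * (ρ * w ^ 2) ≤ ρ * (ρ * w ^ 2) := mul_le_mul_of_nonneg_right h2 (by positivity)
  have p3 : 3 * r2 * L ^ 2 * ρ ≤ ρ * w ^ 2 * ρ := mul_le_mul_of_nonneg_right h3 hρ
  nlinarith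

theorem fin_num (P : TT.Par) (hP : P.Ok) (W0 : ℕ) (hW : 0 < W0) {δ0 δ1 δm δ2 e3 : ℝ} (hE : Exps4 P.d0 δ0 δ1 δm δ2 e3) :
    ∃ x0 : ℕ, ∀ (x l n : ℕ) (ρ ε SID : ℝ), x0 ≤ x → TT.Mul P x l → (x : ℝ) ^ (1 - P.d0) ≤ n → n ≤ x → 0 ≤ ρ → 1 ≤ (Real.log x) ^ (2 * P.Cf) * ρ → 0 ≤ ε →
    ε * (Real.log x) ^ 404 ≤ 1 → SID ≤ ρ * n / (Real.log x) ^ (P.C1 + 203) →
    (W0 : ℝ) * (SID + 2 * Real.sqrt (ρ * ((ε * ρ + (x : ℝ) ^ (-δ2)) * ((n : ℝ) / l) ^ 2 + (x : ℝ) ^ δm * (2 * (n : ℝ) * (x : ℝ) ^ (1 - e3))))) ≤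
      ρ * n / (l * (Real.log x) ^ 200) := by
  have hWr : (0 : ℝ) < W0 := by exact_mod_cast hW
  have a1 := RH.ev_log_pow (400 + 2 * P.Cf) δ2 hE.e2 (48 * (W0 : ℝ) ^ 2) (by positivity)
  have a2 := RH.ev_log_pow (400 + 2 * P.C1 + 2 * P.Cf) (e3 - P.d0 - δm) (by have := hE.a2; have := hE.e00; have := hE.em; linarith)
    (96 * 16 * (W0 : ℝ) ^ 2) (by positivity)
  have a3 := RH.ev_log_ge (48 * (W0 : ℝ) ^ 2 + 1)
  obtain ⟨x0, hx0⟩ := (a1.and (a2.and a3)).exists_forall_of_atTop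
  refine ⟨max x0 2, ?_⟩
  intro x l n ρ ε SID hx hl hn hnx hρ hρ1 hε hε1 hS
  obtain ⟨g1, g2, g3⟩ := hx0 x ((le_max_left _ _).trans hx)
  have hx2 : 2 ≤ x := (le_max_right _ _).trans hx
  have hxr : (2 : ℝ) ≤ x := by exact_mod_cast hx2
  have hx1 : (1 : ℝ) ≤ x := by linarith
  have hxp : (0 : ℝ) < x := by linarith
  set K : ℝ := Real.log x with hK
  have hW2 : (1 : ℝ) ≤ (W0 : ℝ) := by exact_mod_cast hW
  have hW3 : (1 : ℝ) ≤ (W0 : ℝ) ^ 2 := one_le_pow₀ hW2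
  have hWW : (W0 : ℝ) ≤ (W0 : ℝ) ^ 2 := by nlinarith
  have hK1 : 1 ≤ K := by linarith
  have hK0 : 0 < K := by linarith
  obtain ⟨l1, l2⟩ := nm_l hK1 hl
  have hlr : (1 : ℝ) ≤ l := by exact_mod_cast l1
  have hlp : (0 : ℝ) < l := by linarith
  have hn0 : (0 : ℝ) < n := lt_of_lt_of_le (by positivity) hn
  have hKW : 48 * (W0 : ℝ) ^ 2 ≤ K := by linarith
  have hKK : K ≤ K ^ 3 := by
    calc K = K ^ 1 := (pow_one K).symm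
      _ ≤ K ^ 3 := pow_le_pow_right₀ hK1 (by norm_num)
  -- the first part
  have P1 : (W0 : ℝ) * SID ≤ ρ * n / (l * K ^ 200) / 2 := by
    calc (W0 : ℝ) * SID ≤ W0 * (ρ * n / K ^ (P.C1 + 203)) := mul_le_mul_of_nonneg_left hS hWr.le
      _ ≤ ρ * n / (l * K ^ 200) / 2 := by
        rw [div_div, mul_div_assoc', div_le_div_iff₀ (by positivity) (by positivity)]
        have h1 : 2 * (W0 : ℝ) * l ≤ K ^ (P.C1 + 3) := by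
          calc 2 * (W0 : ℝ) * l ≤ 2 * (W0 : ℝ) ^ 2 * (4 * K ^ P.C1) := by
                apply mul_le_mul _ l2 hlp.le (by positivity)
                linarith
            _ = (8 * (W0 : ℝ) ^ 2) * K ^ P.C1 := by ring
            _ ≤ K ^ 3 * K ^ P.C1 := by
                apply mul_le_mul_of_nonneg_right _ (by positivity)
                linarith [sq_nonneg (W0 : ℝ)]
            _ = K ^ (P.C1 + 3) := by ring
        calc (W0 : ℝ) * (ρ * n) * (l * K ^ 200 * 2) = (ρ * n * K ^ 200) * (2 * W0 * l) := by ring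
          _ ≤ (ρ * n * K ^ 200) * K ^ (P.C1 + 3) := mul_le_mul_of_nonneg_left h1 (by positivity)
          _ = ρ * n * K ^ (P.C1 + 203) := by
            rw [mul_assoc, ← pow_add, show 200 + (P.C1 + 3) = P.C1 + 203 by ring]
  -- the root
  have P2 : (W0 : ℝ) * (2 * Real.sqrt (ρ * ((ε * ρ + (x : ℝ) ^ (-δ2)) * ((n : ℝ) / l) ^ 2 + (x : ℝ) ^ δm * (2 * (n : ℝ) * (x : ℝ) ^ (1 - e3))))) ≤
      ρ * n / (l * K ^ 200) / 2 := by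
    have hL : (0 : ℝ) < 4 * W0 * K ^ 200 := by positivity
    have e0 : (4 * (W0 : ℝ) * K ^ 200) ^ 2 = 16 * (W0 : ℝ) ^ 2 * K ^ 400 := by ring
    have h4 : (48 * (W0 : ℝ) ^ 2) * K ^ 400 ≤ K ^ 404 := by
      calc (48 * (W0 : ℝ) ^ 2) * K ^ 400 ≤ K ^ 4 * K ^ 400 := by
            apply mul_le_mul_of_nonneg_right _ (by positivity)
            refine hKW.trans ?_
            calc K = K ^ 1 := (pow_one K).symm
              _ ≤ K ^ 4 := pow_le_pow_right₀ hK1 (by norm_num)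
        _ = K ^ 404 := by ring
    have q1 : 3 * ε * (4 * (W0 : ℝ) * K ^ 200) ^ 2 ≤ 1 := by
      rw [e0]
      calc 3 * ε * (16 * (W0 : ℝ) ^ 2 * K ^ 400) = ε * ((48 * (W0 : ℝ) ^ 2) * K ^ 400) := by ring
        _ ≤ ε * K ^ 404 := mul_le_mul_of_nonneg_left h4 hε
        _ ≤ 1 := hε1
    have q2 : 3 * (x : ℝ) ^ (-δ2) * (4 * (W0 : ℝ) * K ^ 200) ^ 2 ≤ ρ := by
      rw [e0]
      have h5 : (x : ℝ) ^ (-δ2) * (x : ℝ) ^ δ2 = 1 := by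
        rw [← Real.rpow_add hxp]
        simp
      have h6 : 48 * (W0 : ℝ) ^ 2 * K ^ (400 + 2 * P.Cf) * (x : ℝ) ^ (-δ2) ≤ 1 := by
        calc 48 * (W0 : ℝ) ^ 2 * K ^ (400 + 2 * P.Cf) * (x : ℝ) ^ (-δ2) ≤ (x : ℝ) ^ δ2 * (x : ℝ) ^ (-δ2) :=
              mul_le_mul_of_nonneg_right g1 (by positivity)
          _ = 1 := by rw [mul_comm, h5]
      calc 3 * (x : ℝ) ^ (-δ2) * (16 * (W0 : ℝ) ^ 2 * K ^ 400) = (48 * (W0 : ℝ) ^ 2 * K ^ 400 * (x : ℝ) ^ (-δ2)) * 1 := by ring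
        _ ≤ (48 * (W0 : ℝ) ^ 2 * K ^ 400 * (x : ℝ) ^ (-δ2)) * (K ^ (2 * P.Cf) * ρ) := mul_le_mul_of_nonneg_left hρ1 (by positivity)
        _ = (48 * (W0 : ℝ) ^ 2 * K ^ (400 + 2 * P.Cf) * (x : ℝ) ^ (-δ2)) * ρ := by
            rw [pow_add]
            ring
        _ ≤ 1 * ρ := mul_le_mul_of_nonneg_right h6 hρ
        _ = ρ := one_mul _
    have q3 : 3 * ((x : ℝ) ^ δm * (2 * (n : ℝ) * (x : ℝ) ^ (1 - e3))) * (4 * (W0 : ℝ) * K ^ 200) ^ 2 ≤ ρ * ((n : ℝ) / l) ^ 2 := by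
      rw [e0, div_pow, mul_div_assoc', le_div_iff₀ (by positivity)]
      have h5 : (x : ℝ) ^ δm * (x : ℝ) ^ (1 - e3) * (x : ℝ) ^ (e3 - P.d0 - δm) = (x : ℝ) ^ (1 - P.d0) := by
        rw [← Real.rpow_add hxp, ← Real.rpow_add hxp]
        congr 1
        ring
      have h6 : (l : ℝ) ^ 2 ≤ 16 * K ^ (2 * P.C1) := by
        calc (l : ℝ) ^ 2 ≤ (4 * K ^ P.C1) ^ 2 := pow_le_pow_left₀ hlp.le l2 2
          _ = 16 * K ^ (2 * P.C1) := by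
            rw [mul_pow, ← pow_mul, mul_comm P.C1 2]
            norm_num
      have h7 : (x : ℝ) ^ δm * (x : ℝ) ^ (1 - e3) * (96 * 16 * (W0 : ℝ) ^ 2 * K ^ (400 + 2 * P.C1 + 2 * P.Cf)) ≤ n := by
        calc (x : ℝ) ^ δm * (x : ℝ) ^ (1 - e3) * (96 * 16 * (W0 : ℝ) ^ 2 * K ^ (400 + 2 * P.C1 + 2 * P.Cf)) ≤
              (x : ℝ) ^ δm * (x : ℝ) ^ (1 - e3) * (x : ℝ) ^ (e3 - P.d0 - δm) := mul_le_mul_of_nonneg_left g2 (by positivity)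
          _ = (x : ℝ) ^ (1 - P.d0) := h5
          _ ≤ n := hn
      calc 3 * ((x : ℝ) ^ δm * (2 * (n : ℝ) * (x : ℝ) ^ (1 - e3))) * (16 * (W0 : ℝ) ^ 2 * K ^ 400) * (l : ℝ) ^ 2 =
            (n * ((x : ℝ) ^ δm * (x : ℝ) ^ (1 - e3)) * (96 * (W0 : ℝ) ^ 2 * K ^ 400)) * (l : ℝ) ^ 2 * 1 := by ring
        _ ≤ (n * ((x : ℝ) ^ δm * (x : ℝ) ^ (1 - e3)) * (96 * (W0 : ℝ) ^ 2 * K ^ 400)) * (16 * K ^ (2 * P.C1)) * (K ^ (2 * P.Cf) * ρ) := by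
            apply mul_le_mul _ hρ1 (by norm_num) (by positivity)
            exact mul_le_mul_of_nonneg_left h6 (by positivity)
        _ = (n * ρ) * ((x : ℝ) ^ δm * (x : ℝ) ^ (1 - e3) * (96 * 16 * (W0 : ℝ) ^ 2 * K ^ (400 + 2 * P.C1 + 2 * P.Cf))) := by
            rw [pow_add, pow_add]
            ring
        _ ≤ (n * ρ) * n := mul_le_mul_of_nonneg_left h7 (by positivity)
        _ = ρ * (n : ℝ) ^ 2 := by ring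
    have h8 := nm_root hρ (by positivity : (0 : ℝ) ≤ (n : ℝ) / l) hL q1 q2 q3
    calc (W0 : ℝ) * (2 * Real.sqrt (ρ * ((ε * ρ + (x : ℝ) ^ (-δ2)) * ((n : ℝ) / l) ^ 2 + (x : ℝ) ^ δm * (2 * (n : ℝ) * (x : ℝ) ^ (1 - e3))))) ≤
          (W0 : ℝ) * (2 * (ρ * ((n : ℝ) / l) / (4 * W0 * K ^ 200))) :=
          mul_le_mul_of_nonneg_left (mul_le_mul_of_nonneg_left h8 (by norm_num)) hWr.le
      _ = ρ * n / (l * K ^ 200) / 2 := by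
          field_simp
          ring
  calc (W0 : ℝ) * (SID + 2 * Real.sqrt (ρ * ((ε * ρ + (x : ℝ) ^ (-δ2)) * ((n : ℝ) / l) ^ 2 + (x : ℝ) ^ δm * (2 * (n : ℝ) * (x : ℝ) ^ (1 - e3))))) =
        (W0 : ℝ) * SID + (W0 : ℝ) * (2 * Real.sqrt (ρ * ((ε * ρ + (x : ℝ) ^ (-δ2)) * ((n : ℝ) / l) ^ 2 + (x : ℝ) ^ δm * (2 * (n : ℝ) * (x : ℝ) ^ (1 - e3))))) := by ring
    _ ≤ ρ * n / (l * K ^ 200) / 2 + ρ * n / (l * K ^ 200) / 2 := add_le_add P1 P2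
    _ = ρ * n / (l * K ^ 200) := by ring

end Pool.Agent.Lib.TTD
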