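import Pool.Agent.Lib.MP_092512_nt.TT.D.Cls
import Pool.Agent.Lib.MP_092512_nt.TT.D.Dec
import Pool.Agent.Lib.MP_092512_nt.TT.D.Nm

/-!
# TTD / Ap: the field `ap` of `Inp`
-/

set_option autoImplicit false

open Finset

namespace Pool.Agent.Lib.TTD

open Pool.Agent.Lib.TTC (MS Msr)
open Pool.Agent.Lib.TCF (TUP rho)
open Pool.Agent.Lib.RG (Rough)
open Pool.Agent.Lib.MP_45349e_nt.LS (lam)

private theorem Ap_rho {n : ℕ} (B : Fin n → Finset ℕ) : 0 ≤ rho B := by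
  unfold Pool.Agent.Lib.TCF.rho
  exact prod_nonneg fun c _ => sum_nonneg fun p _ => by positivity

open Classical in
/-- **the field `ap` of the input of the frame** -/
theorem ap_thm (P : TT.Par) (hP : P.Ok) (h01 : P.d0 ≤ 1 / 100) (W0 W1 : ℕ) (hW : 1 ≤ W1) (hW2 : 2 ∣ W1) (h : ℤ) (hh : h ≠ 0) (hs : P.s = true ↔ 0 < h)
    (hR : P.R = W1 ^ 2 * h.natAbs) (hq : P.R ∣ P.q) {δ0 δ1 δm δ2 e3 : ℝ} (hE : Exps4 P.d0 δ0 δ1 δm δ2 e3) :
    ∃ x0 : ℕ, ∀ (S : MS) (T : TTC.Dat) (D : TT.Dat) (y1 : ℕ) (Bd : ℕ → ℕ → ℕ → Prop) (ε s v : ℝ), x0 ≤ D.x → T.h = h →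
    Brg4 P D S T W0 W1 y1 (Bd T.l) δ0 δ1 δm δ2 ε e3 s v →
    ∀ u d : ℕ, (D.x : ℝ) ^ (1 - P.d0) ≤ u → u ≤ D.x → 1 ≤ d → (d : ℝ) ≤ (Real.log D.x) ^ (P.Cf + P.C1 + 240) → d ≡ P.R [MOD P.q] →
    ∑ X ∈ (Icc 1 (2 * u)).filter (fun X => u < T.l * X ∧ T.l * X ≤ 2 * u),
      (if lam (T.l * X) ≠ lam (TT.sh P.s (T.l * X) d) then TT.cnt D Bd T.l X (TT.sh P.s (T.l * X) d) else 0) ≤
      rho D.BX * rho D.BY * u / (T.l * (Real.log D.x) ^ 200) := by
  obtain ⟨x1, g1⟩ := hm_ok P hP W0 W1 hW hE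
  obtain ⟨x2, g2⟩ := fin_num P hP W1 hW hE
  obtain ⟨x3, g3⟩ := TTE.balP P hP h01 W1 hW hW2 h hh hs (P.C1 + 203)
  refine ⟨max x1 (max x2 x3), ?_⟩
  intro S T D y1 Bd ε s v hx hTh hB u d hu hux hd1 hdK hdR
  rw [max_le_iff, max_le_iff] at hx
  obtain ⟨k1, k2, k3⟩ := hx
  have hTh0 : T.h ≠ 0 := by rw [hTh]; exact hh
  -- the difference
  have hRd : P.R ∣ d := (((hdR.of_dvd hq).dvd_iff dvd_rfl).2 dvd_rfl)
  obtain ⟨D', hD'⟩ := hRd
  have hdD : d = W1 ^ 2 * D' * T.h.natAbs := by rw [hD', hR, hTh]; ring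
  have hD0 : 0 < D' := by
    rcases Nat.eq_zero_or_pos D' with h1 | h1
    · rw [h1, mul_zero] at hD'
      omega
    · exact h1
  have hdK' : ((W1 ^ 2 * D' * T.h.natAbs : ℕ) : ℝ) ≤ (Real.log D.x) ^ (P.Cf + P.C1 + 240) := by
    rw [← hdD]
    exact hdK
  have hMy := fun yc : ℕ => g1 S T D y1 (Bd T.l) ε s v k1 hTh0 hB u D' yc hu hux hD0 hdK'
  have hM := hMy 0
  have hρX := Ap_rho D.BX
  have hρY := Ap_rho D.BY
  -- the case of a multiplier which divides the difference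
  rcases Classical.em (T.l = 1 ∨ ¬ T.l ∣ W1 ^ 2 * D') with hlD | hlD
  swap
  · rw [not_or, not_not] at hlD
    have hld : T.l ∣ d := by
      rw [hdD]
      exact hlD.2.mul_right _
    have hlp : T.l.Prime := by
      rcases hB.mul with h1 | h1
      · exact absurd h1 hlD.1
      · exact h1.1
    have hly : T.l ≤ D.y0 := by
      rw [← hB.ey]
      exact hM.ly T.l hlp dvd_rfl
    have hz : ∑ X ∈ (Icc 1 (2 * u)).filter (fun X => u < T.l * X ∧ T.l * X ≤ 2 * u),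
      (if lam (T.l * X) ≠ lam (TT.sh P.s (T.l * X) d) then TT.cnt D Bd T.l X (TT.sh P.s (T.l * X) d) else 0) = 0 := by
      refine sum_eq_zero fun X _ => ?_
      split_ifs
      · unfold TT.cnt
        rw [if_neg]
        rintro ⟨-, h2⟩
        have h3 : T.l ∣ TT.sh P.s (T.l * X) d := by
          unfold TT.sh
          split_ifs
          · exact Nat.dvd_sub (dvd_mul_right _ _) hld
          · exact dvd_add (dvd_mul_right _ _) hld
        have h4 := h2 T.l hlp h3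
        omega
      · rfl
    rw [hz]
    exact div_nonneg (mul_nonneg (mul_nonneg hρX hρY) (Nat.cast_nonneg _)) (mul_nonneg (Nat.cast_nonneg _) (pow_nonneg (Real.log_natCast_nonneg _) _))
  -- the balance
  have hbal : ∀ r : ℕ, ∑ t ∈ TUP D.BX, ∑ t' ∈ TUP D.BY, |((BP (wD T (W1 ^ 2 * D') r) W1 u r t t' 1).card : ℝ) - (BP (wD T (W1 ^ 2 * D') r) W1 u r t t' (-1)).card| ≤
      rho D.BX * rho D.BY * u / (Real.log D.x) ^ (P.C1 + 203) := by
    intro r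
    have h1 := g3 D k3 hB.ctx T.l u D' r hB.mul hu hux hD0 (by rw [← hTh]; exact hdK')
    refine le_trans (le_of_eq ?_) h1
    refine sum_congr rfl fun t _ => sum_congr rfl fun t' _ => ?_
    obtain ⟨e1, e2⟩ := bp_pse T W1 D' r u r t t'
    rw [e1, e2, hB.ey, hTh]
  have hcls : ∀ r ∈ range W1, ∑ t ∈ TUP D.BX, ∑ t' ∈ (TUP D.BY).filter (fun t' => ¬ Bd T.l t t'),
      (((BP (wD T (W1 ^ 2 * D') 0) W1 u r t t' 1).card : ℝ) + (BP (wD T (W1 ^ 2 * D') 0) W1 u r t t' (-1)).card) ≤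
      rho D.BX * rho D.BY * u / (Real.log D.x) ^ (P.C1 + 203) + 2 * Real.sqrt ((rho D.BX * rho D.BY) * ((ε * (rho D.BX * rho D.BY) + (D.x : ℝ) ^ (-δ2)) * ((u : ℝ) / T.l) ^ 2 +
        (D.x : ℝ) ^ δm * (2 * (u : ℝ) * (D.x : ℝ) ^ (1 - e3)))) := by
    intro r _
    have hWD : W1 ∣ W1 ^ 2 * D' := Dvd.dvd.mul_right (dvd_pow_self W1 two_ne_zero) _
    by_cases hrW : r.Coprime W1
    · have h1 := cls_bound (T := wD T (W1 ^ 2 * D') r) (W0 := W0) (y1 := y1) (n := u) (Bd := Bd T.l) (hMy r) hB.fam (hB.plem D' r hD0 hrW hlD hdK')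
        (by
          have h2 := hB.exb D' r hD0 hlD hdK'
          rw [← hB.TN] at h2
          exact h2)
        hB.size ⟨hB.par.wx, hB.par.wy, hB.par.ab⟩ (by show 0 < W1 ^ 2 * D'; positivity) (fun μ hμ ν hν hb => hB.bd μ hμ ν hν hb) hB.s1 hB.u1
        (W1 := W1) hB.w1 hWD _ (hbal r)
      have hN : (wD T (W1 ^ 2 * D') r).N = D.x := hB.TN
      have hl : (wD T (W1 ^ 2 * D') r).l = T.l := rfl
      rw [hN, hl] at h1
      exact h1
    · have hK0 : (0 : ℝ) ≤ Real.log D.x := Real.log_natCast_nonneg _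
      refine le_trans (le_of_eq ?_) (add_nonneg (div_nonneg (mul_nonneg (mul_nonneg hρX hρY) (Nat.cast_nonneg _)) (pow_nonneg hK0 _))
        (mul_nonneg zero_le_two (Real.sqrt_nonneg _)))
      refine sum_eq_zero fun t _ => sum_eq_zero fun t' _ => ?_
      rw [bp_emp (T := wD T (W1 ^ 2 * D') 0) hWD hM.dd hrW, bp_emp (T := wD T (W1 ^ 2 * D') 0) hWD hM.dd hrW]
      simp
  rw [hdD]
  have hdec := ap_dec (P := P) (D := D) (T := T) (W0 := W1) (D' := D') (u := u) hW (by rw [hTh]; exact hs) hTh0 hB.ey hM.l0 hM.ly (by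
      have h2 : 5 * (W1 ^ 2 * D' * T.h.natAbs) < u := hM.Dh
      omega)
    (by
      intro t ht p hp hpt
      obtain ⟨μ, hμ, rfl⟩ := (hB.fam.x t).1 ht
      rw [← hB.ey]
      exact hB.sets.pX μ hμ p hp hpt) Bd
  refine hdec.trans ((sum_le_sum hcls).trans ?_)
  rw [sum_const, card_range, nsmul_eq_mul]
  refine g2 D.x T.l u (rho D.BX * rho D.BY) ε _ k2 hB.mul hu hux (mul_nonneg hρX hρY) ?_ hB.e0 ?_ le_rfl
  · have h1 := hB.ctx.fx.rh
    have h2 := hB.ctx.fy.rh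
    have h3 : (Real.log D.x) ^ (2 * P.Cf) * (rho D.BX * rho D.BY) = ((Real.log D.x) ^ P.Cf * rho D.BX) * ((Real.log D.x) ^ P.Cf * rho D.BY) := by
      rw [two_mul, pow_add]
      ring
    rw [h3]
    calc (1 : ℝ) = 1 * 1 := (one_mul 1).symm
      _ ≤ _ := mul_le_mul h1 h2 zero_le_one (zero_le_one.trans h1)
  · have h1 := hB.e1
    rw [hB.TN] at h1
    exact h1

end Pool.Agent.Lib.TTD
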