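import Pool.Agent.Lib.MP_092512_nt.TT.P.D3

/-!
# TTD: the pair lemma in the form used by the double count

`R = W1 ^ 2 * |h|` is a constant, `W1 = W0 ^ r`, `K = log T.N`, `T.N` is the scale.
-/

set_option autoImplicit false

open Finset

namespace Pool.Agent.Lib.TTD

open Pool.Agent.Lib.TTC (MS Msr)

/-- `n` is coprime to `W` and free of primes `≤ y0` -/
def Rg (T : TTC.Dat) (n : ℕ) : Prop := 0 < n ∧ ∀ p : ℕ, p.Prime → p ≤ T.y0 → ¬ p ∣ n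

/-- `X = l X'`, `X'` and `Y = X - D h` free of primes `≤ y0` -/
def CR (T : TTC.Dat) (X : ℕ) : Prop := (∃ X' : ℕ, X = T.l * X' ∧ Rg T X') ∧ (T.D : ℤ) * T.h < X ∧ Rg T (T.Y X)

open Classical in
/-- weight of the pairs `(X, X')` (with `Y`, `Y'` in the class `T.yc` modulo `W1`) without a common good cycle, divided by `m1'` -/
noncomputable def Wbad2 {S : MS} (M M' : Msr S) (T : TTC.Dat) (W1 y1 : ℕ) : ℝ :=
  ∑ μ ∈ S.MX, ∑ ν ∈ S.MY, if S.badpair T 0 y1 μ ν ∨ S.evp T μ ν then 0 else M.S2 M' μ ν fun n n' =>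
    if CR T (M.X μ ν n) ∧ CR T (M'.X μ ν n') ∧ (T.Y (M.X μ ν n) ≡ T.yc [MOD W1] ∧ T.Y (M'.X μ ν n') ≡ T.yc [MOD W1]) ∧
      ¬ S.Linked2 T μ ν (M.X μ ν n) (M'.X μ ν n') then 1 else 0

/-- the pair lemma for two numbers, for one `D` -/
def PLem2 (S : MS) (T : TTC.Dat) (W0 y1 : ℕ) (δ0 δ1 δ2 ε : ℝ) : Prop :=
  ∀ M M' : Msr S, M.OK3 T W0 δ0 δ1 → M'.OK3 T W0 δ0 δ1 →
    Wbad2 M M' T (W0 ^ T.r) y1 ≤ ε * (M.tot * M'.W) + (T.N : ℝ) ^ (-δ2) * (M.W * M'.W)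

end Pool.Agent.Lib.TTD
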