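import Pool.Agent.Lib.MP_092512_nt.TT.C.PDefs
import Pool.Agent.Lib.MP_7b7e48_nt.TC.CycLam

/-!
# Lab: the label of a good cycle

`λ(α_i) λ(β_i) = -1` for all `i`, `λ(A_i) λ(B_i) = -1` for `i < k`, no number `n` of the cycle has `λ(n) = s`, `λ(n - h) = u`. If `λ(X) ≠ λ(Y)`
(`Y = X - D h`) then `λ(Y)` is a function of the marks, of `D` and of the colouring: `lab`.
-/

set_option autoImplicit false

open Finset
open Pool.Agent.Lib.MP_45349e_nt.LS (lam)
open Pool.Agent.Lib.TC (lam_pm lam_sq lam_prod)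

namespace Pool.Agent.Lib.TTD

open Pool.Agent.Lib.TTC

private theorem lab_lm {a b : ℕ} (ha : 0 < a) (hb : 0 < b) : lam (a * b) = lam a * lam b :=
  Pool.Agent.Lib.MP_45349e_nt.LS.lam_mul _ _ ha.ne' hb.ne'

private theorem lab_ne {a : ℕ} {s : ℝ} (hs : s ^ 2 = 1) (h : lam a ≠ s) : lam a = -s := by
  have hs' : s * s = 1 := by rw [← sq]; exact hs
  rcases lam_pm a with q | q <;> rcases mul_self_eq_one_iff.1 hs' with r | r
  all_goals first
    | exact absurd (q.trans r.symm) h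
    | (rw [q, r]; done)
    | (rw [q, r]; norm_num)

private theorem lab_subE {h : ℤ} {m : ℕ} {A B al be e t : ℕ → ℕ} (c : Cyc h m A B al be e t) {i : ℕ} (hi : i < m) :
    (((e i * A i : ℕ) : ℤ) - h).toNat = t i * be i := by
  have h1 := c.E i hi
  have h2 : ((e i * A i : ℕ) : ℤ) - h = ((t i * be i : ℕ) : ℤ) := by
    push_cast
    linarith
  rw [h2, Int.toNat_natCast]

private theorem lab_subF {h : ℤ} {m : ℕ} {A B al be e t : ℕ → ℕ} (c : Cyc h m A B al be e t) {i : ℕ} (hi : i < m) :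
    (((e i * B i : ℕ) : ℤ) - h).toNat = t ((i + 1) % m) * al ((i + 1) % m) := by
  have h1 := c.F i hi
  have h2 : ((e i * B i : ℕ) : ℤ) - h = ((t ((i + 1) % m) * al ((i + 1) % m) : ℕ) : ℤ) := by
    push_cast
    linarith
  rw [h2, Int.toNat_natCast]

/-- `n` has the missing pattern -/
def Pat (h : ℤ) (s u : ℝ) (n : ℕ) : Prop := lam n = s ∧ lam ((n : ℤ) - h).toNat = u

/-- the chain of a cycle -/
theorem lab_chain {h : ℤ} {k : ℕ} {A B al be e t : ℕ → ℕ} (c : Cyc h (k + 1) A B al be e t)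
    (hA : ∀ i < k + 1, 0 < A i) (hB : ∀ i < k + 1, 0 < B i) (ha : ∀ i < k + 1, 0 < al i) (hb : ∀ i < k + 1, 0 < be i)
    {s u : ℝ} (hs : s ^ 2 = 1) (hu : u ^ 2 = 1)
    (hw : ∀ i < k + 1, lam (al i) * lam (be i) = -1) (hAB : ∀ i < k, lam (A i) * lam (B i) = -1)
    (h1 : ∀ i < k + 1, ¬ Pat h s u (e i * A i)) (h2 : ∀ i < k + 1, ¬ Pat h s u (e i * B i))
    (hst : lam (e k * B k) = s) : lam (e k * A k) = -s := by
  have key : ∀ i < k + 1, lam (t i * al i) = -u → lam (e i * A i) = -s := by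
    intro i hi h0
    refine lab_ne hs fun h3 => h1 i hi ⟨h3, ?_⟩
    rw [lab_subE c hi, lab_lm (c.t0 i hi) (hb i hi)]
    rw [lab_lm (c.t0 i hi) (ha i hi)] at h0
    have h4 := hw i hi
    have h5 := lam_sq (al i)
    calc lam (t i) * lam (be i) = lam (t i) * (lam (al i) * lam (al i)) * lam (be i) := by rw [h5]; ring
      _ = (lam (t i) * lam (al i)) * (lam (al i) * lam (be i)) := by ring
      _ = u := by rw [h0, h4]; ring
  have key2 : ∀ i ≤ k, lam (e i * A i) = -s := by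
    intro i
    induction i with
    | zero =>
      intro _
      refine key 0 (by omega) ?_
      have h3 := lab_subF c (i := k) (by omega)
      rw [Nat.mod_self] at h3
      rw [← h3]
      exact lab_ne hu fun h4 => h2 k (by omega) ⟨hst, h4⟩
    | succ i ih =>
      intro hi
      have h3 := ih (by omega)
      rw [lab_lm (c.e0 i (by omega)) (hA i (by omega))] at h3
      have h4 : lam (e i * B i) = s := by
        rw [lab_lm (c.e0 i (by omega)) (hB i (by omega))]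
        have h5 := hAB i (by omega)
        have h6 := lam_sq (A i)
        calc lam (e i) * lam (B i) = lam (e i) * (lam (A i) * lam (A i)) * lam (B i) := by rw [h6]; ring
          _ = (lam (e i) * lam (A i)) * (lam (A i) * lam (B i)) := by ring
          _ = s := by rw [h3, h5]; ring
      refine key (i + 1) (by omega) ?_
      have h5 := lab_subF c (i := i) (by omega)
      rw [Nat.mod_eq_of_lt (by omega)] at h5
      rw [← h5]
      exact lab_ne hu fun h6 => h2 i (by omega) ⟨h4, h6⟩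
  exact key2 k le_rfl

/-- if the chain starts with the value `s` then `λ(X) = λ(Y)` -/
theorem lab_start {h : ℤ} {k : ℕ} {A B al be e t : ℕ → ℕ} (c : Cyc h (k + 1) A B al be e t)
    (hA : ∀ i < k + 1, 0 < A i) (hB : ∀ i < k + 1, 0 < B i) (ha : ∀ i < k + 1, 0 < al i) (hb : ∀ i < k + 1, 0 < be i)
    {s u : ℝ} (hs : s ^ 2 = 1) (hu : u ^ 2 = 1)
    (hw : ∀ i < k + 1, lam (al i) * lam (be i) = -1) (hAB : ∀ i < k, lam (A i) * lam (B i) = -1)
    (h1 : ∀ i < k + 1, ¬ Pat h s u (e i * A i)) (h2 : ∀ i < k + 1, ¬ Pat h s u (e i * B i))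
    (hst : lam (e k * B k) = s) :
    lam (∏ i ∈ range (k + 1), al i * A i) = lam (∏ i ∈ range (k + 1), be i * B i) := by
  have h3 := lab_chain c hA hB ha hb hs hu hw hAB h1 h2 hst
  have h4 : lam (A k) * lam (B k) = -1 := by
    rw [lab_lm (c.e0 k (by omega)) (hA k (by omega))] at h3
    rw [lab_lm (c.e0 k (by omega)) (hB k (by omega))] at hst
    have h5 := lam_sq (e k)
    calc lam (A k) * lam (B k) = (lam (e k) * lam (e k)) * lam (A k) * lam (B k) := by rw [h5]; ring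
      _ = (lam (e k) * lam (A k)) * (lam (e k) * lam (B k)) := by ring
      _ = -1 := by rw [h3, hst]; nlinarith
  have h5 : ∀ i ∈ range (k + 1), lam (A i) * lam (B i) = -1 := by
    intro i hi
    rw [mem_range] at hi
    rcases Nat.lt_succ_iff_lt_or_eq.1 hi with h | h
    · exact hAB i h
    · rw [h]; exact h4
  have h6 : lam (∏ i ∈ range (k + 1), al i * A i) * lam (∏ i ∈ range (k + 1), be i * B i) = 1 := by
    rw [lam_prod _ _ fun i hi => Nat.mul_pos (ha i hi) (hA i hi), lam_prod _ _ fun i hi => Nat.mul_pos (hb i hi) (hB i hi),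
      ← prod_mul_distrib]
    refine prod_eq_one fun i hi => ?_
    have hi' := mem_range.1 hi
    rw [lab_lm (ha i hi') (hA i hi'), lab_lm (hb i hi') (hB i hi')]
    calc lam (al i) * lam (A i) * (lam (be i) * lam (B i)) = (lam (al i) * lam (be i)) * (lam (A i) * lam (B i)) := by ring
      _ = 1 := by rw [hw i hi', h5 i hi]; norm_num
  have h7 := lam_sq (∏ i ∈ range (k + 1), be i * B i)
  calc lam (∏ i ∈ range (k + 1), al i * A i) =
      lam (∏ i ∈ range (k + 1), al i * A i) * (lam (∏ i ∈ range (k + 1), be i * B i) * lam (∏ i ∈ range (k + 1), be i * B i)) := by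
        rw [h7]; ring
    _ = (lam (∏ i ∈ range (k + 1), al i * A i) * lam (∏ i ∈ range (k + 1), be i * B i)) *
        lam (∏ i ∈ range (k + 1), be i * B i) := by ring
    _ = _ := by rw [h6]; ring

/-- the parities of a mark system -/
structure Par (S : MS) (T : Dat) : Prop where
  wx : ∀ i, ∀ l ∈ S.WX i, 0 < l ∧ lam l = -1
  wy : ∀ i, ∀ l ∈ S.WY i, 0 < l ∧ lam l = 1
  ab : ∀ c ∈ S.CC, ∀ μ ∈ S.MX, ∀ ν ∈ S.MY, ∀ i < S.k, 0 < S.AA T.N c μ ν 0 i ∧ 0 < S.BB T.N c μ ν 0 i ∧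
    lam (S.AA T.N c μ ν 0 i) * lam (S.BB T.N c μ ν 0 i) = -1

/-- the label of a colouring -/
noncomputable def lab (S : MS) (T : Dat) (s : ℝ) (c : S.Col) (μ : S.TX) (ν : S.TY) : ℝ :=
  -s * lam (S.SI T.N c μ ν / T.D) * ((∏ i ∈ range (S.k + 1), lam (ext1 ν.1 i)) * ∏ i ∈ range S.k, lam (S.BB T.N c μ ν 0 i))

theorem lab_eq {S : MS} {T : Dat} (hP : Par S T) (hD : 0 < T.D) {c : S.Col} {μ : S.TX} {ν : S.TY} (hμ : μ ∈ S.MX) (hν : ν ∈ S.MY) {X : ℕ}
    (hX : 0 < X) (hY : 0 < T.Y X) {e t : ℕ → ℕ} (h : S.Good T c μ ν X e t) {s u : ℝ} (hs : s ^ 2 = 1) (hu : u ^ 2 = 1)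
    (h1 : ∀ i < S.k + 1, ¬ Pat T.h s u (e i * S.AA T.N c μ ν X i))
    (h2 : ∀ i < S.k + 1, ¬ Pat T.h s u (e i * S.BB T.N c μ ν (T.Y X) i))
    (hne : lam X ≠ lam (T.Y X)) : lam (T.Y X) = lab S T s c μ ν := by
  have hAA : ∀ i < S.k, S.AA T.N c μ ν X i = S.AA T.N c μ ν 0 i := by
    intro i hi; unfold MS.AA; rw [if_pos hi, if_pos hi]
  have hBB : ∀ i < S.k, S.BB T.N c μ ν (T.Y X) i = S.BB T.N c μ ν 0 i := by
    intro i hi; unfold MS.BB; rw [if_pos hi, if_pos hi]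
  have hpos : ∀ i < S.k + 1, 0 < S.AA T.N c μ ν X i ∧ 0 < S.BB T.N c μ ν (T.Y X) i ∧ 0 < ext1 μ.1 i ∧ 0 < ext1 ν.1 i := by
    have hA := h.prodA
    have hB := h.prodB
    intro i hi
    have h3 : (∏ i ∈ range (S.k + 1), ext1 μ.1 i * S.AA T.N c μ ν X i) ≠ 0 := by rw [hA]; omega
    have h4 : (∏ i ∈ range (S.k + 1), ext1 ν.1 i * S.BB T.N c μ ν (T.Y X) i) ≠ 0 := by rw [hB]; omega
    rw [prod_ne_zero_iff] at h3 h4
    have h5 := h3 i (mem_range.2 hi)
    have h6 := h4 i (mem_range.2 hi)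
    refine ⟨?_, ?_, ?_, ?_⟩ <;> refine Nat.pos_of_ne_zero fun h7 => ?_
    · exact h5 (by rw [h7, mul_zero])
    · exact h6 (by rw [h7, mul_zero])
    · exact h5 (by rw [h7, zero_mul])
    · exact h6 (by rw [h7, zero_mul])
  have hmX : ∀ i, μ.1 i ∈ S.WX i := by
    unfold MS.MX at hμ
    rw [mem_product, Fintype.mem_piFinset] at hμ
    exact hμ.1
  have hmY : ∀ i, ν.1 i ∈ S.WY i := by
    unfold MS.MY at hν
    rw [mem_product, Fintype.mem_piFinset] at hν
    exact hν.1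
  have hw : ∀ i < S.k + 1, lam (ext1 μ.1 i) * lam (ext1 ν.1 i) = -1 := by
    intro i hi
    unfold ext1
    rw [dif_pos hi, dif_pos hi, (hP.wx _ _ (hmX ⟨i, hi⟩)).2, (hP.wy _ _ (hmY ⟨i, hi⟩)).2]
    norm_num
  have hAB : ∀ i < S.k, lam (S.AA T.N c μ ν X i) * lam (S.BB T.N c μ ν (T.Y X) i) = -1 := by
    intro i hi
    rw [hAA i hi, hBB i hi]
    exact (hP.ab c h.col μ hμ ν hν i hi).2.2
  have hk : lam (e S.k * S.BB T.N c μ ν (T.Y X) S.k) = -s := by
    refine lab_ne hs fun h3 => hne ?_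
    have h4 := lab_start h.cyc (fun i hi => (hpos i hi).1) (fun i hi => (hpos i hi).2.1) (fun i hi => (hpos i hi).2.2.1)
      (fun i hi => (hpos i hi).2.2.2) hs hu hw hAB h1 h2 h3
    rw [h.prodA, h.prodB] at h4
    exact h4
  have hek : S.SI T.N c μ ν / T.D = e S.k := by
    rw [← h.last]
    exact Nat.mul_div_cancel_left _ hD
  have he0 : 0 < e S.k := h.cyc.e0 S.k (by omega)
  rw [lab_lm he0 (hpos S.k (by omega)).2.1] at hk
  have hYY : lam (T.Y X) = (∏ i ∈ range (S.k + 1), lam (ext1 ν.1 i)) *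
      ((∏ i ∈ range S.k, lam (S.BB T.N c μ ν 0 i)) * lam (S.BB T.N c μ ν (T.Y X) S.k)) := by
    conv_lhs => rw [← h.prodB]
    rw [lam_prod _ _ fun i hi => Nat.mul_pos (hpos i hi).2.2.2 (hpos i hi).2.1]
    have h3 : ∀ i ∈ range (S.k + 1), lam (ext1 ν.1 i * S.BB T.N c μ ν (T.Y X) i) =
        lam (ext1 ν.1 i) * lam (S.BB T.N c μ ν (T.Y X) i) := by
      intro i hi
      rw [mem_range] at hi
      exact lab_lm (hpos i hi).2.2.2 (hpos i hi).2.1
    rw [prod_congr rfl h3, prod_mul_distrib, prod_range_succ (fun i => lam (S.BB T.N c μ ν (T.Y X) i))]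
    congr 2
    refine prod_congr rfl fun i hi => ?_
    rw [mem_range] at hi
    rw [hBB i hi]
  have hBk : lam (S.BB T.N c μ ν (T.Y X) S.k) = -s * lam (e S.k) := by
    have h5 := lam_sq (e S.k)
    calc lam (S.BB T.N c μ ν (T.Y X) S.k) =
        (lam (e S.k) * lam (e S.k)) * lam (S.BB T.N c μ ν (T.Y X) S.k) := by rw [h5]; ring
      _ = (lam (e S.k) * lam (S.BB T.N c μ ν (T.Y X) S.k)) * lam (e S.k) := by ring
      _ = _ := by rw [hk]
  rw [hYY, hBk]
  unfold lab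
  rw [hek]
  ring

end Pool.Agent.Lib.TTD
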