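import Pool.Agent.Lib.MP_092512_nt.TT.Def
import Pool.Agent.Lib.MP_092512_nt.TT.D.Def
import Pool.Agent.Lib.MP_092512_nt.TT.D.Lab

/-!
# TTD / T0: the double count, definitions

`T.l` = 1 or a prime `≤ y0`, `X = T.l X'`, `Y = X - D h`. `mX`: the measure of the numbers `X = l μ n ∈ (u, 2 u]`.
-/

set_option autoImplicit false

open Finset

namespace Pool.Agent.Lib.TTD

open Pool.Agent.Lib.TTC (MS Msr)
open Pool.Agent.Lib.TCF (TUP rho)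
open Pool.Agent.Lib.RG (Rough)
open Pool.Agent.Lib.MP_45349e_nt.LS (lam)

/-- the data with another `D` and another class -/
def wD (T : TTC.Dat) (D yc : ℕ) : TTC.Dat := { T with D := D, yc := yc }

/-- The tuples of a mark system are squarefree products of primes `> y0`, determined by their products. -/
structure Sets4 (S : MS) (y0 : ℕ) : Prop where
  sqX : ∀ μ ∈ S.MX, Squarefree (S.prX id μ)
  sqY : ∀ ν ∈ S.MY, Squarefree (S.prY id ν)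
  pX : ∀ μ ∈ S.MX, ∀ p : ℕ, p.Prime → p ∣ S.prX id μ → y0 < p
  pY : ∀ ν ∈ S.MY, ∀ p : ℕ, p.Prime → p ∣ S.prY id ν → y0 < p
  injX : ∀ μ ∈ S.MX, ∀ μ' ∈ S.MX, S.prX id μ = S.prX id μ' → μ = μ'
  injY : ∀ ν ∈ S.MY, ∀ ν' ∈ S.MY, S.prY id ν = S.prY id ν' → ν = ν'

/-- the data of the frame belong to the mark system -/
structure Fam4 (S : MS) (D : TT.Dat) : Prop where
  x : ∀ t : ℕ, t ∈ TUP D.BX ↔ ∃ μ ∈ S.MX, S.prX id μ = t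
  y : ∀ t : ℕ, t ∈ TUP D.BY ↔ ∃ ν ∈ S.MY, S.prY id ν = t
  rX : rho D.BX = ∑ μ ∈ S.MX, 1 / ((S.prX id μ : ℕ) : ℝ)
  rY : rho D.BY = ∑ ν ∈ S.MY, 1 / ((S.prY id ν : ℕ) : ℝ)

open Classical in
/-- the measure: `X = l μ n ∈ (u, 2 u]`, `ν ∣ X - D h` -/
noncomputable def mX (S : MS) (T : TTC.Dat) (u : ℕ) : Msr S where
  v := T.l
  x0 := 0
  t2 := False
  nm := 2 * u
  tau := fun μ _ => S.prX id μ
  X := fun μ _ n => T.l * S.prX id μ * n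
  Om := fun μ ν n => if u < T.l * S.prX id μ * n ∧ T.l * S.prX id μ * n ≤ 2 * u ∧ S.prY id ν ∣ T.Y (T.l * S.prX id μ * n) then 1 else 0
  W := (u : ℝ) / T.l
  hX := fun p => 1 / (p : ℝ)
  hY := fun p => 1 / (p : ℝ)
  g := fun p => 1 / (p : ℝ)

/-- hypotheses for the measure -/
structure HM (S : MS) (T : TTC.Dat) (u : ℕ) (δ1 : ℝ) : Prop where
  sets : Sets4 S T.y0
  N2 : 2 ≤ T.N
  l0 : 0 < T.l
  lN : T.l ≤ T.N
  ly : ∀ p : ℕ, p.Prime → p ∣ T.l → p ≤ T.y0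
  dd : ∀ p : ℕ, p.Prime → p ∣ T.D * T.h.natAbs → p ≤ T.y0
  Dh : 5 * (T.D * T.h.natAbs) < u
  uN : u ≤ T.N
  er : 1 ≤ (T.N : ℝ) ^ (-δ1) * ((u : ℝ) / T.l)

/-- a good cycle of `X` contains a number with the missing pattern -/
def LE (S : MS) (T : TTC.Dat) (s u : ℝ) (μ : S.TX) (ν : S.TY) (X : ℕ) : Prop :=
  ∃ c e t, S.Good T c μ ν X e t ∧ ∃ i < S.k + 1, Pat T.h s u (e i * S.AA T.N c μ ν X i) ∨ Pat T.h s u (e i * S.BB T.N c μ ν (T.Y X) i)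

open Classical in
/-- the pairs which have the missing pattern in a cycle are rare -/
def EXB (S : MS) (T : TTC.Dat) (s u : ℝ) (B : ℕ) (e3 : ℝ) : Prop :=
  ∑ μ ∈ S.MX, ∑ ν ∈ S.MY, (((range (B + 1)).filter fun X => LE S T s u μ ν X).card : ℝ) ≤ (T.N : ℝ) ^ (1 - e3)

open Classical in
/-- the numbers `X ∈ (u, 2 u]`, `t ∣ X`, `t' ∣ Y`, `X ≡ r` modulo `W`, which satisfy `CR` -/
noncomputable def PS (T : TTC.Dat) (W u r t t' : ℕ) : Finset ℕ :=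
  (Ioc u (2 * u)).filter fun X => CR T X ∧ t ∣ X ∧ t' ∣ T.Y X ∧ X ≡ r [MOD W]

open Classical in
/-- those with `lam X = - x`, `lam Y = x` -/
noncomputable def BP (T : TTC.Dat) (W u r t t' : ℕ) (x : ℝ) : Finset ℕ :=
  (PS T W u r t t').filter fun X => lam X = -x ∧ lam (T.Y X) = x

/-- the hypotheses of the double count for one multiplier `T.l` -/
structure Brg4 (P : TT.Par) (D : TT.Dat) (S : MS) (T : TTC.Dat) (W0 W1 y1 : ℕ) (Bd : ℕ → ℕ → Prop) (δ0 δ1 δm δ2 ε e3 s u : ℝ) : Prop where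
  w1 : W1 = W0 ^ T.r
  ctx : TT.Ctx P D
  mul : TT.Mul P D.x T.l
  TN : T.N = D.x
  ey : T.y0 = D.y0
  sets : Sets4 S T.y0
  fam : Fam4 S D
  size : ∀ μ ∈ S.MX, ∀ ν ∈ S.MY, ((S.prX id μ * S.prY id ν : ℕ) : ℝ) ≤ (T.N : ℝ) ^ δm
  par : Par S T
  bd : ∀ μ ∈ S.MX, ∀ ν ∈ S.MY, S.badpair T 0 y1 μ ν ∨ S.evp T μ ν → Bd (S.prX id μ) (S.prY id ν)
  s1 : s ^ 2 = 1
  u1 : u ^ 2 = 1
  e0 : 0 ≤ ε
  e1 : ε * (Real.log T.N) ^ 404 ≤ 1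
  plem : ∀ D' yc : ℕ, 0 < D' → yc.Coprime W1 → (T.l = 1 ∨ ¬ T.l ∣ W1 ^ 2 * D') →
    ((W1 ^ 2 * D' * T.h.natAbs : ℕ) : ℝ) ≤ (Real.log D.x) ^ (P.Cf + P.C1 + 240) → PLem2 S (wD T (W1 ^ 2 * D') yc) W0 y1 δ0 δ1 δ2 ε
  exb : ∀ D' yc : ℕ, 0 < D' → (T.l = 1 ∨ ¬ T.l ∣ W1 ^ 2 * D') →
    ((W1 ^ 2 * D' * T.h.natAbs : ℕ) : ℝ) ≤ (Real.log D.x) ^ (P.Cf + P.C1 + 240) → EXB S (wD T (W1 ^ 2 * D') yc) s u (2 * D.x) e3

/-- relations between the exponents -/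
structure Exps4 (κ δ0 δ1 δm δ2 e3 : ℝ) : Prop where
  e00 : 0 < κ
  e0 : 0 < δ0
  e1 : 0 < δ1
  em : 0 ≤ δm
  e2 : 0 < δ2
  a1 : κ + δ1 ≤ 1 / 4
  a2 : 2 * (κ + δm) ≤ e3

end Pool.Agent.Lib.TTD
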