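import Pool.Agent.Lib.MP_092512_nt.TT.D.T0

/-!
# TTD / Ex: the exceptional pairs

PROOF. For fixed `μ, ν`: the number of the pairs is `≤ |{X ∈ A : LE}| |B| + |A| |{X' ∈ B : LE}| ≤ 2 u |{X ≤ E : LE X}|` because `A, B ⊆ Ioc u (2 u)`, `2 u ≤ E`; multiply by `prX prY ≤ N^δm` and sum (`EXB`).
-/

set_option autoImplicit false

open Finset

namespace Pool.Agent.Lib.TTD

open Pool.Agent.Lib.TTC (MS Msr)
open Pool.Agent.Lib.TCF (TUP rho)
open Pool.Agent.Lib.RG (Rough)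
open Pool.Agent.Lib.MP_45349e_nt.LS (lam)

open Classical in
theorem expairs {S : MS} {T : TTC.Dat} {E u : ℕ} {e3 δm s v : ℝ} (hx : EXB S T s v E e3)
    (hs : ∀ μ ∈ S.MX, ∀ ν ∈ S.MY, ((S.prX id μ * S.prY id ν : ℕ) : ℝ) ≤ (T.N : ℝ) ^ δm) (hE : 2 * u ≤ E)
    (A B : S.TX → S.TY → Finset ℕ) (hA : ∀ μ ν, A μ ν ⊆ Ioc u (2 * u)) (hB : ∀ μ ν, B μ ν ⊆ Ioc u (2 * u)) :
    ∑ μ ∈ S.MX, ∑ ν ∈ S.MY, ((S.prX id μ * S.prY id ν : ℕ) : ℝ) *
      (((A μ ν ×ˢ B μ ν).filter fun q => LE S T s v μ ν q.1 ∨ LE S T s v μ ν q.2).card : ℝ) ≤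
      (T.N : ℝ) ^ δm * (2 * (u : ℝ) * (T.N : ℝ) ^ (1 - e3)) := by
  have hab' : (0 : ℝ) ≤ (u : ℝ) := Nat.cast_nonneg _
  unfold EXB at hx
  have hcard : ∀ C : Finset ℕ, C ⊆ Ioc u (2 * u) → (C.card : ℝ) ≤ (u : ℝ) := by
    intro C hC
    have h1 := card_le_card hC
    rw [Nat.card_Ioc] at h1
    exact_mod_cast (by omega : C.card ≤ u)
  have hsub : ∀ μ ν, ∀ C : Finset ℕ, C ⊆ Ioc u (2 * u) →
      C.filter (fun X => LE S T s v μ ν X) ⊆ (range (E + 1)).filter fun X => LE S T s v μ ν X := by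
    intro μ ν C hC X hX
    rw [mem_filter] at hX
    have h1 := mem_Ioc.1 (hC hX.1)
    rw [mem_filter, mem_range]
    exact ⟨by omega, hX.2⟩
  have key : ∀ μ ν, (((A μ ν ×ˢ B μ ν).filter fun q => LE S T s v μ ν q.1 ∨ LE S T s v μ ν q.2).card : ℝ) ≤
      2 * (u : ℝ) * (((range (E + 1)).filter fun X => LE S T s v μ ν X).card : ℝ) := by
    intro μ ν
    have h1 : (A μ ν ×ˢ B μ ν).filter (fun q => LE S T s v μ ν q.1 ∨ LE S T s v μ ν q.2) ⊆
        ((A μ ν).filter (fun X => LE S T s v μ ν X) ×ˢ B μ ν) ∪ (A μ ν ×ˢ (B μ ν).filter (fun X => LE S T s v μ ν X)) := by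
      intro q hq
      rw [mem_filter, mem_product] at hq
      rw [mem_union, mem_product, mem_product, mem_filter, mem_filter]
      rcases hq.2 with h | h
      · exact Or.inl ⟨⟨hq.1.1, h⟩, hq.1.2⟩
      · exact Or.inr ⟨hq.1.1, hq.1.2, h⟩
    have h2 := (card_le_card h1).trans (card_union_le _ _)
    rw [card_product, card_product] at h2
    have h3 : (((A μ ν ×ˢ B μ ν).filter fun q => LE S T s v μ ν q.1 ∨ LE S T s v μ ν q.2).card : ℝ) ≤
        (((A μ ν).filter (fun X => LE S T s v μ ν X)).card : ℝ) * ((B μ ν).card : ℝ) +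
        ((A μ ν).card : ℝ) * (((B μ ν).filter (fun X => LE S T s v μ ν X)).card : ℝ) := by exact_mod_cast h2
    have h4 : (((A μ ν).filter (fun X => LE S T s v μ ν X)).card : ℝ) ≤
        (((range (E + 1)).filter fun X => LE S T s v μ ν X).card : ℝ) := by
      exact_mod_cast card_le_card (hsub μ ν _ (hA μ ν))
    have h5 : (((B μ ν).filter (fun X => LE S T s v μ ν X)).card : ℝ) ≤
        (((range (E + 1)).filter fun X => LE S T s v μ ν X).card : ℝ) := by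
      exact_mod_cast card_le_card (hsub μ ν _ (hB μ ν))
    have h6 := hcard _ (hA μ ν)
    have h7 := hcard _ (hB μ ν)
    have h8 := mul_le_mul h4 h7 (Nat.cast_nonneg _) (Nat.cast_nonneg _)
    have h9 := mul_le_mul h6 h5 (Nat.cast_nonneg _) hab'
    linarith
  calc ∑ μ ∈ S.MX, ∑ ν ∈ S.MY, ((S.prX id μ * S.prY id ν : ℕ) : ℝ) *
      (((A μ ν ×ˢ B μ ν).filter fun q => LE S T s v μ ν q.1 ∨ LE S T s v μ ν q.2).card : ℝ)
      ≤ ∑ μ ∈ S.MX, ∑ ν ∈ S.MY, (T.N : ℝ) ^ δm * (2 * (u : ℝ) *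
        (((range (E + 1)).filter fun X => LE S T s v μ ν X).card : ℝ)) :=
        sum_le_sum fun μ hμ => sum_le_sum fun ν hν => mul_le_mul (hs μ hμ ν hν) (key μ ν) (Nat.cast_nonneg _)
          (Real.rpow_nonneg (Nat.cast_nonneg _) _)
    _ = (T.N : ℝ) ^ δm * (2 * (u : ℝ) *
        ∑ μ ∈ S.MX, ∑ ν ∈ S.MY, (((range (E + 1)).filter fun X => LE S T s v μ ν X).card : ℝ)) := by
        simp only [mul_sum]
    _ ≤ _ := mul_le_mul_of_nonneg_left (mul_le_mul_of_nonneg_left hx (by linarith)) (Real.rpow_nonneg (Nat.cast_nonneg _) _)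

end Pool.Agent.Lib.TTD
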