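import Pool.Agent.Lib.MP_092512_nt.TT.D.T0

/-!
# TTD / Lc: two bad numbers with a common good cycle

If neither `LE X` nor `LE X'` holds then `lab_eq` gives `lam Y = lab .. = lam Y'`.
-/

set_option autoImplicit false

open Finset

namespace Pool.Agent.Lib.TTD

open Pool.Agent.Lib.TTC (MS Msr)
open Pool.Agent.Lib.MP_45349e_nt.LS (lam)

theorem lab_two {S : MS} {T : TTC.Dat} (hP : Par S T) (hD : 0 < T.D) {s u : ℝ} (hs : s ^ 2 = 1) (hu : u ^ 2 = 1) {μ : S.TX} {ν : S.TY}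
    (hμ : μ ∈ S.MX) (hν : ν ∈ S.MY) {X X' : ℕ} (h0 : 0 < X) (h0' : 0 < X') (hX : (T.D : ℤ) * T.h < X) (hX' : (T.D : ℤ) * T.h < X') (hl : S.Linked2 T μ ν X X')
    (h1 : lam X ≠ lam (T.Y X)) (h2 : lam X' ≠ lam (T.Y X')) (h3 : lam (T.Y X) ≠ lam (T.Y X')) :
    LE S T s u μ ν X ∨ LE S T s u μ ν X' := by
  have hY : ∀ {Z : ℕ}, (T.D : ℤ) * T.h < Z → 0 < T.Y Z := by
    intro Z hZ
    unfold TTC.Dat.Y
    omega
  by_contra hn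
  rw [not_or] at hn
  obtain ⟨hn1, hn2⟩ := hn
  obtain ⟨c, ⟨e, t, g⟩, ⟨e', t', g'⟩⟩ := hl
  have a1 := lab_eq hP hD hμ hν h0 (hY hX) g hs hu (fun i hi hp => hn1 ⟨c, e, t, g, i, hi, Or.inl hp⟩)
    (fun i hi hp => hn1 ⟨c, e, t, g, i, hi, Or.inr hp⟩) h1
  have a2 := lab_eq hP hD hμ hν h0' (hY hX') g' hs hu (fun i hi hp => hn2 ⟨c, e', t', g', i, hi, Or.inl hp⟩)
    (fun i hi hp => hn2 ⟨c, e', t', g', i, hi, Or.inr hp⟩) h2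
  exact h3 (a1.trans a2.symm)

end Pool.Agent.Lib.TTD
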