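import Pool.Agent.Lib.MP_092512_nt.TT.D.Pr
import Pool.Agent.Lib.MP_092512_nt.TT.D.Ex
import Pool.Agent.Lib.MP_092512_nt.TT.D.Lc
import Pool.Agent.Lib.MP_7b7e48_nt.T3D.Sq

/-!
# TTD / Cls (60 minutes): one difference and one class

Port of `MP_7b7e48_nt/T3D/Cls.lean`.
-/

set_option autoImplicit false

open Finset

namespace Pool.Agent.Lib.TTD

open Pool.Agent.Lib.TTC (MS Msr)
open Pool.Agent.Lib.TCF (TUP rho)
open Pool.Agent.Lib.RG (Rough)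
open Pool.Agent.Lib.MP_45349e_nt.LS (lam)

open Classical in
/-- sums over the tuples of the data as sums over the tuples of the system -/
private theorem cls_sum {α : Type*} (A : Finset α) (f : α → ℕ) (hi : ∀ a ∈ A, ∀ b ∈ A, f a = f b → a = b) (U : Finset ℕ)
    (hU : ∀ t : ℕ, t ∈ U ↔ ∃ a ∈ A, f a = t) (F : ℕ → ℝ) : ∑ t ∈ U, F t = ∑ a ∈ A, F (f a) := by
  have h1 : U = A.image f := by
    ext t
    rw [mem_image, hU]
  rw [h1, sum_image]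
  intro a ha b hb hab
  exact hi a ha b hb hab

private theorem cls_card {α : Type*} (A B : Finset α) (L E : α × α → Prop) [DecidablePred fun q => ¬ L q] [DecidablePred fun q => E q]
    (h : ∀ q ∈ A ×ˢ B, L q → E q) :
    (A.card : ℝ) * B.card ≤ (((A ×ˢ B).filter fun q => ¬ L q).card : ℝ) + (((A ×ˢ B).filter fun q => E q).card : ℝ) := by
  classical
  rw [← Nat.cast_mul, ← card_product, ← Nat.cast_add, Nat.cast_le]
  refine le_trans (card_le_card ?_) (card_union_le _ _)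
  intro q hq
  rw [mem_union, mem_filter, mem_filter]
  by_cases hL : L q
  · exact Or.inr ⟨hq, h q hq hL⟩
  · exact Or.inl ⟨hq, hL⟩

open Classical in
/-- the sets `BP` of a pair of tuples which is not bad -/
private noncomputable def BS (S : MS) (T : TTC.Dat) (W0 y1 n r : ℕ) (x : ℝ) (μ : S.TX) (ν : S.TY) : Finset ℕ :=
  if S.badpair T 0 y1 μ ν ∨ S.evp T μ ν then ∅ else BP T W0 n r (S.prX id μ) (S.prY id ν) x

/-- the class of `Y` -/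
private theorem cls_Y {T : TTC.Dat} {W1 X r : ℕ} (hD : W1 ∣ T.D) (h : (T.D : ℤ) * T.h < X) (hX : X ≡ r [MOD W1]) : T.Y X ≡ r [MOD W1] := by
  have h1 : ((T.Y X : ℕ) : ℤ) = (X : ℤ) - T.D * T.h := by
    unfold TTC.Dat.Y
    rw [Int.toNat_of_nonneg (by linarith)]
  refine (Int.natCast_modEq_iff).1 ?_
  rw [h1]
  have h2 : (X : ℤ) - T.D * T.h ≡ (X : ℤ) - 0 [ZMOD (W1 : ℤ)] := by
    refine Int.ModEq.sub (Int.ModEq.refl _) ?_
    exact (Int.modEq_zero_iff_dvd).2 (Dvd.dvd.mul_right (Int.natCast_dvd_natCast.2 hD) _)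
  rw [sub_zero] at h2
  exact h2.trans ((Int.natCast_modEq_iff).2 hX)

open Classical in
theorem cls_bound {S : MS} {T : TTC.Dat} {D : TT.Dat} {W0 y1 n : ℕ} {Bd : ℕ → ℕ → Prop} {δ0 δ1 δm δ2 ε e3 s u : ℝ} (H : HM S T n δ1) (hF : Fam4 S D)
    (hP : PLem2 S T W0 y1 δ0 δ1 δ2 ε) (hx : EXB S T s u (2 * T.N) e3)
    (hsz : ∀ μ ∈ S.MX, ∀ ν ∈ S.MY, ((S.prX id μ * S.prY id ν : ℕ) : ℝ) ≤ (T.N : ℝ) ^ δm) (hpar : Par S T) (hD : 0 < T.D)
    (hbd : ∀ μ ∈ S.MX, ∀ ν ∈ S.MY, S.badpair T 0 y1 μ ν ∨ S.evp T μ ν → Bd (S.prX id μ) (S.prY id ν)) (hs : s ^ 2 = 1) (hu : u ^ 2 = 1)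
    {W1 : ℕ} (hW1 : W1 = W0 ^ T.r) (hWD : W1 ∣ T.D) (SID : ℝ)
    (hS : ∑ t ∈ TUP D.BX, ∑ t' ∈ TUP D.BY, |((BP T W1 n T.yc t t' 1).card : ℝ) - (BP T W1 n T.yc t t' (-1)).card| ≤ SID) :
    ∑ t ∈ TUP D.BX, ∑ t' ∈ (TUP D.BY).filter (fun t' => ¬ Bd t t'), (((BP T W1 n T.yc t t' 1).card : ℝ) + (BP T W1 n T.yc t t' (-1)).card) ≤
      SID + 2 * Real.sqrt ((rho D.BX * rho D.BY) * ((ε * (rho D.BX * rho D.BY) + (T.N : ℝ) ^ (-δ2)) * ((n : ℝ) / T.l) ^ 2 +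
        (T.N : ℝ) ^ δm * (2 * (n : ℝ) * (T.N : ℝ) ^ (1 - e3)))) := by
  -- members of the sets
  have hmem : ∀ (x : ℝ) (μ : S.TX) (ν : S.TY) (X : ℕ), X ∈ BS S T W1 y1 n T.yc x μ ν →
      (n < X ∧ X ≤ 2 * n ∧ S.prX id μ ∣ X ∧ S.prY id ν ∣ T.Y X ∧ CR T X) ∧ X ≡ T.yc [MOD W1] ∧ lam X = -x ∧ lam (T.Y X) = x := by
    intro x μ ν X hX
    unfold BS at hX
    split_ifs at hX with hc
    · exact absurd hX (notMem_empty X)
    · unfold BP PS at hX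
      rw [mem_filter, mem_filter, mem_Ioc] at hX
      obtain ⟨⟨⟨h1, h2⟩, h3, h4, h5, h6⟩, h7, h8⟩ := hX
      exact ⟨⟨h1, h2, h4, h5, h3⟩, h6, h7, h8⟩
  have hsub : ∀ x : ℝ, ∀ μ ν, BS S T W1 y1 n T.yc x μ ν ⊆ Ioc n (2 * n) := by
    intro x μ ν X hX
    have := (hmem x μ ν X hX).1
    exact mem_Ioc.2 ⟨this.1, this.2.1⟩
  have hp1 := pairs (W0 := W0) (y1 := y1) H hF hP (BS S T W1 y1 n T.yc 1) (BS S T W1 y1 n T.yc (-1))
    (fun μ _ ν _ X hX => (hmem _ μ ν X hX).1) (fun μ _ ν _ X hX => (hmem _ μ ν X hX).1)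
    (by
      intro μ _ ν _ hbad
      unfold BS
      rw [if_pos hbad])
    (by
      intro μ _ ν _ X hX X' hX'
      rw [← hW1]
      exact ⟨cls_Y hWD (hmem _ μ ν X hX).1.2.2.2.2.2.1 (hmem _ μ ν X hX).2.1, cls_Y hWD (hmem _ μ ν X' hX').1.2.2.2.2.2.1 (hmem _ μ ν X' hX').2.1⟩)
  have hp2 := expairs (E := 2 * T.N) (u := n) hx hsz (by have := H.uN; omega) (BS S T W1 y1 n T.yc 1) (BS S T W1 y1 n T.yc (-1)) (hsub 1) (hsub (-1))
  -- Cauchy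
  have hxpos : ∀ a ∈ S.MX ×ˢ S.MY, (0 : ℝ) < ((S.prX id a.1 * S.prY id a.2 : ℕ) : ℝ) := by
    intro a ha
    rw [mem_product] at ha
    have h1 := (H.sets.sqX _ ha.1).ne_zero
    have h2 := (H.sets.sqY _ ha.2).ne_zero
    exact_mod_cast Nat.pos_of_ne_zero (mul_ne_zero h1 h2)
  have hca := T3D.cauchy (S.MX ×ˢ S.MY) (fun a => ((S.prX id a.1 * S.prY id a.2 : ℕ) : ℝ))
    (fun a => ((BS S T W1 y1 n T.yc 1 a.1 a.2).card : ℝ)) (fun a => ((BS S T W1 y1 n T.yc (-1) a.1 a.2).card : ℝ))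
    hxpos (fun _ _ => Nat.cast_nonneg _) (fun _ _ => Nat.cast_nonneg _) SID (rho D.BX * rho D.BY)
    ((ε * (rho D.BX * rho D.BY) + (T.N : ℝ) ^ (-δ2)) * ((n : ℝ) / T.l) ^ 2 + (T.N : ℝ) ^ δm * (2 * (n : ℝ) * (T.N : ℝ) ^ (1 - e3)))
    ?_ ?_ ?_
  · refine le_trans ?_ hca
    rw [sum_product, cls_sum S.MX (S.prX id) H.sets.injX (TUP D.BX) hF.x]
    refine sum_le_sum fun μ hμ => ?_
    rw [sum_filter, cls_sum S.MY (S.prY id) H.sets.injY (TUP D.BY) hF.y]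
    refine sum_le_sum fun ν hν => ?_
    by_cases h3 : Bd (S.prX id μ) (S.prY id ν)
    · rw [if_neg (not_not.2 h3)]
      positivity
    · have h4 : ¬ (S.badpair T 0 y1 μ ν ∨ S.evp T μ ν) := fun h => h3 (hbd μ hμ ν hν h)
      have h5 : ∀ x : ℝ, BS S T W1 y1 n T.yc x μ ν = BP T W1 n T.yc (S.prX id μ) (S.prY id ν) x := by
        intro x
        unfold BS
        rw [if_neg h4]
      rw [if_pos h3, h5, h5]
  · refine le_trans ?_ hS
    rw [sum_product, cls_sum S.MX (S.prX id) H.sets.injX (TUP D.BX) hF.x]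
    refine sum_le_sum fun μ hμ => ?_
    rw [cls_sum S.MY (S.prY id) H.sets.injY (TUP D.BY) hF.y]
    refine sum_le_sum fun ν hν => ?_
    by_cases h4 : S.badpair T 0 y1 μ ν ∨ S.evp T μ ν
    · have h5 : ∀ x : ℝ, BS S T W1 y1 n T.yc x μ ν = ∅ := by
        intro x
        unfold BS
        rw [if_pos h4]
      simp only [h5, card_empty, Nat.cast_zero, sub_zero, abs_zero]
      exact abs_nonneg _
    · have h5 : ∀ x : ℝ, BS S T W1 y1 n T.yc x μ ν = BP T W1 n T.yc (S.prX id μ) (S.prY id ν) x := by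
        intro x
        unfold BS
        rw [if_neg h4]
      simp only [h5]
      exact le_rfl
  · rw [hF.rX, hF.rY, sum_mul_sum, sum_product]
    refine le_of_eq (sum_congr rfl fun μ _ => sum_congr rfl fun ν _ => ?_)
    push_cast
    rw [one_div_mul_one_div]
  · have h1 : ∀ μ ∈ S.MX, ∀ ν ∈ S.MY, ((S.prX id μ * S.prY id ν : ℕ) : ℝ) *
        (((BS S T W1 y1 n T.yc 1 μ ν).card : ℝ) * ((BS S T W1 y1 n T.yc (-1) μ ν).card : ℝ)) ≤
        ((S.prX id μ * S.prY id ν : ℕ) : ℝ) *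
          ((((BS S T W1 y1 n T.yc 1 μ ν) ×ˢ (BS S T W1 y1 n T.yc (-1) μ ν)).filter fun q => ¬ S.Linked2 T μ ν q.1 q.2).card : ℝ) +
        ((S.prX id μ * S.prY id ν : ℕ) : ℝ) *
          ((((BS S T W1 y1 n T.yc 1 μ ν) ×ˢ (BS S T W1 y1 n T.yc (-1) μ ν)).filter fun q => LE S T s u μ ν q.1 ∨ LE S T s u μ ν q.2).card : ℝ) := by
      intro μ hμ ν hν
      rw [← mul_add]
      refine mul_le_mul_of_nonneg_left ?_ (Nat.cast_nonneg _)
      refine cls_card _ _ (fun q => S.Linked2 T μ ν q.1 q.2) (fun q => LE S T s u μ ν q.1 ∨ LE S T s u μ ν q.2) ?_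
      rintro ⟨X, X'⟩ hq hl
      rw [mem_product] at hq
      obtain ⟨⟨ha1, _, _, _, ha2⟩, _, ha5, ha6⟩ := hmem _ μ ν X hq.1
      obtain ⟨⟨hb1, _, _, _, hb2⟩, _, hb5, hb6⟩ := hmem _ μ ν X' hq.2
      refine lab_two hpar hD hs hu hμ hν (by omega) (by omega) ha2.2.1 hb2.2.1 hl ?_ ?_ ?_
      · rw [ha5, ha6]; norm_num
      · rw [hb5, hb6]; norm_num
      · rw [ha6, hb6]; norm_num
    rw [sum_product]
    refine le_trans (sum_le_sum fun μ hμ => sum_le_sum fun ν hν => h1 μ hμ ν hν) ?_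
    simp only [sum_add_distrib]
    exact add_le_add hp1 hp2

end Pool.Agent.Lib.TTD
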