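import Pool.Agent.Lib.MP_092512_nt.TT.D.T0

/-!
# TTD / Mx: the measure `mX` satisfies `OK3`; its masses
-/

set_option autoImplicit false

open Finset

namespace Pool.Agent.Lib.TTD

open Pool.Agent.Lib.TTC (MS Msr)
open Pool.Agent.Lib.TCF (TUP rho)
open Pool.Agent.Lib.RG (Rough)
open Pool.Agent.Lib.MP_45349e_nt.LS (lam)

private theorem Mx_prX (S : MS) (μ : S.TX) : S.prX (fun p : ℕ => 1 / (p : ℝ)) μ = 1 / ((S.prX id μ : ℕ) : ℝ) := by
  unfold TTC.MS.prX
  simp only [id]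
  push_cast
  rw [prod_div_distrib, prod_div_distrib, prod_div_distrib]
  simp only [prod_const_one]
  rw [one_div_mul_one_div, one_div_mul_one_div]

private theorem Mx_prY (S : MS) (ν : S.TY) : S.prY (fun p : ℕ => 1 / (p : ℝ)) ν = 1 / ((S.prY id ν : ℕ) : ℝ) := by
  unfold TTC.MS.prY
  simp only [id]
  push_cast
  rw [prod_div_distrib, prod_div_distrib, prod_div_distrib]
  simp only [prod_const_one]
  rw [one_div_mul_one_div, one_div_mul_one_div]

theorem mX_m1 (S : MS) (T : TTC.Dat) (u : ℕ) (μ : S.TX) (ν : S.TY) :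
    (mX S T u).m1 μ ν = 1 / ((S.prX id μ : ℕ) : ℝ) * (1 / ((S.prY id ν : ℕ) : ℝ)) := by
  show S.prX (fun p : ℕ => 1 / (p : ℝ)) μ * S.prY (fun p : ℕ => 1 / (p : ℝ)) ν = _
  rw [Mx_prX, Mx_prY]

theorem mX_tot {S : MS} {D : TT.Dat} (hF : Fam4 S D) (T : TTC.Dat) (u : ℕ) :
    (mX S T u).tot = (u : ℝ) / T.l * (rho D.BX * rho D.BY) := by
  rw [hF.rX, hF.rY]
  show (u : ℝ) / T.l * ((∑ μ ∈ S.MX, S.prX (fun p : ℕ => 1 / (p : ℝ)) μ) * ∑ ν ∈ S.MY, S.prY (fun p : ℕ => 1 / (p : ℝ)) ν) = _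
  simp only [Mx_prX, Mx_prY]

/-- number of the elements of a class in an interval -/
private theorem Mx_cnt {u M : ℕ} (hM : 0 < M) (c : ℕ) :
    |(((Ioc u (2 * u)).filter (fun X => X ≡ c [MOD M])).card : ℝ) - (u : ℝ) / M| ≤ 1 := by
  have h := Nat.Ioc_filter_modEq_card u (2 * u) hM c
  obtain ⟨x, hx⟩ : ∃ x : ℚ, x = (((2 * u : ℕ) : ℚ) - c) / M := ⟨_, rfl⟩
  obtain ⟨y, hy⟩ : ∃ y : ℚ, y = ((u : ℚ) - c) / M := ⟨_, rfl⟩
  rw [← hx, ← hy] at h
  have hxy : x - y = (u : ℚ) / M := by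
    rw [hx, hy]
    push_cast
    ring
  have h0 : (0 : ℚ) ≤ x - y := by rw [hxy]; positivity
  have h1 := Int.floor_le x
  have h2 := Int.lt_floor_add_one x
  have h3 := Int.floor_le y
  have h4 := Int.lt_floor_add_one y
  have h5 : ((((Ioc u (2 * u)).filter (fun X => X ≡ c [MOD M])).card : ℤ) : ℚ) = ((max (⌊x⌋ - ⌊y⌋) 0 : ℤ) : ℚ) := by
    exact_mod_cast h
  have h6 : |(((Ioc u (2 * u)).filter (fun X => X ≡ c [MOD M])).card : ℚ) - (u : ℚ) / M| ≤ 1 := by
    rw [← hxy]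
    rw [Int.cast_natCast] at h5
    rw [h5, abs_le]
    push_cast
    rcases le_total ((⌊x⌋ : ℚ) - ⌊y⌋) 0 with h7 | h7
    · rw [max_eq_right h7]
      constructor <;> linarith
    · rw [max_eq_left h7]
      constructor <;> linarith
  have h7 : ((|(((Ioc u (2 * u)).filter (fun X => X ≡ c [MOD M])).card : ℚ) - (u : ℚ) / M| : ℚ) : ℝ) ≤ ((1 : ℚ) : ℝ) := by
    exact_mod_cast h6
  push_cast at h7
  exact h7

private theorem Mx_Y {T : TTC.Dat} {X ν : ℕ} (hX : (T.D : ℤ) * T.h < X) (hν : 0 < ν) :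
    ν ∣ T.Y X ↔ X ≡ (((T.D : ℤ) * T.h) % (ν : ℤ)).toNat [MOD ν] := by
  have h1 := T.Y_cast hX
  have hν' : (ν : ℤ) ≠ 0 := by exact_mod_cast hν.ne'
  have h2 : (((((T.D : ℤ) * T.h) % (ν : ℤ)).toNat : ℕ) : ℤ) = ((T.D : ℤ) * T.h) % ν := Int.toNat_of_nonneg (Int.emod_nonneg _ hν')
  rw [← Int.natCast_dvd_natCast, h1, ← Int.natCast_modEq_iff, h2]
  constructor
  · intro h3
    exact ((Int.modEq_iff_dvd.2 (by rw [dvd_sub_comm]; exact h3)).trans (Int.mod_modEq _ _).symm)
  · intro h3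
    have h4 := (h3.trans (Int.mod_modEq _ _))
    have h5 := Int.modEq_iff_dvd.1 h4
    rw [dvd_sub_comm]
    exact h5

/-- the two conditions are one class -/
private theorem Mx_one {T : TTC.Dat} {u m q ν : ℕ} (hD : T.D * T.h.natAbs < u) (hν : 0 < ν) (hc : ν.Coprime (m * q)) (r : ℕ) :
    ∃ c : ℕ, ∀ X : ℕ, u < X → (X ≡ m * r [MOD m * q] ∧ ν ∣ T.Y X ↔ X ≡ c [MOD m * q * ν]) := by
  obtain ⟨c, hc1, hc2⟩ := Nat.chineseRemainder hc.symm (m * r) (((T.D : ℤ) * T.h) % (ν : ℤ)).toNat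
  refine ⟨c, fun X hX => ?_⟩
  have h1 : (T.D : ℤ) * T.h < X := by
    have h2 : (T.D : ℤ) * T.h ≤ ((T.D * T.h.natAbs : ℕ) : ℤ) := by
      push_cast
      exact mul_le_mul_of_nonneg_left (le_abs_self _) (Nat.cast_nonneg _)
    have h3 : ((T.D * T.h.natAbs : ℕ) : ℤ) < X := by exact_mod_cast hD.trans hX
    linarith
  rw [Mx_Y h1 hν, ← Nat.modEq_and_modEq_iff_modEq_mul hc.symm]
  exact ⟨fun h => ⟨h.1.trans hc1.symm, h.2.trans hc2.symm⟩, fun h => ⟨h.1.trans hc1, h.2.trans hc2⟩⟩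

open Classical in
private theorem Mx_cl {S : MS} {T : TTC.Dat} {u : ℕ} {μ : S.TX} (ν : S.TY) (q r : ℕ) (hm : 0 < T.l * S.prX id μ) :
    (mX S T u).cl μ ν q r =
      (((Ioc u (2 * u)).filter fun X => X ≡ T.l * S.prX id μ * r [MOD T.l * S.prX id μ * q] ∧ S.prY id ν ∣ T.Y X).card : ℝ) := by
  show (∑ n ∈ (range (2 * u + 1)).filter (fun n => n ≡ r [MOD q]),
    (if u < T.l * S.prX id μ * n ∧ T.l * S.prX id μ * n ≤ 2 * u ∧ S.prY id ν ∣ T.Y (T.l * S.prX id μ * n) then (1 : ℝ) else 0)) = _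
  rw [sum_boole, Nat.cast_inj]
  obtain ⟨m, hmm⟩ : ∃ m, m = T.l * S.prX id μ := ⟨_, rfl⟩
  rw [← hmm] at hm ⊢
  refine card_bij (fun n _ => m * n) ?_ ?_ ?_
  · intro n hn
    rw [mem_filter, mem_filter] at hn
    rw [mem_filter, mem_Ioc]
    exact ⟨⟨hn.2.1, hn.2.2.1⟩, (Nat.ModEq.mul_left_cancel_iff' hm.ne').2 hn.1.2, hn.2.2.2⟩
  · intro a _ b _ h
    exact Nat.eq_of_mul_eq_mul_left hm h
  · intro X hX
    rw [mem_filter, mem_Ioc] at hX
    obtain ⟨⟨h1, h2⟩, h3, h4⟩ := hX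
    have h5 : m ∣ X := by
      have h6 : X ≡ m * r [MOD m] := h3.of_dvd (dvd_mul_right _ _)
      exact (h6.dvd_iff dvd_rfl).2 (dvd_mul_right _ _)
    obtain ⟨n, rfl⟩ := h5
    refine ⟨n, ?_, rfl⟩
    rw [mem_filter, mem_filter, mem_range]
    exact ⟨⟨by nlinarith, (Nat.ModEq.mul_left_cancel_iff' hm.ne').1 h3⟩, h1, h2, h4⟩

private theorem Mx_gq {S : MS} {T : TTC.Dat} {u q : ℕ} (hq : Squarefree q) : (mX S T u).gq q = 1 / (q : ℝ) := by
  show ∏ p ∈ q.primeFactors, (1 / (p : ℝ)) = _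
  rw [prod_div_distrib, prod_const_one]
  congr 1
  have h := Nat.prod_primeFactors_of_squarefree hq
  conv_rhs => rw [← h]
  push_cast
  rfl

private theorem Mx_ms {S : MS} {T : TTC.Dat} {u : ℕ} (μ : S.TX) (ν : S.TY) :
    (mX S T u).ms μ ν = (u : ℝ) / ((T.l * S.prX id μ * S.prY id ν : ℕ) : ℝ) := by
  unfold TTC.Msr.ms
  rw [mX_m1]
  show (u : ℝ) / T.l * _ = _
  push_cast
  rw [one_div_mul_one_div, div_mul_div_comm, mul_one, mul_assoc]

open Classical in
/-- the count for a modulus prime to `prY` -/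
private theorem Mx_eval {S : MS} {T : TTC.Dat} {u : ℕ} {δ1 : ℝ} (H : HM S T u δ1) {μ : S.TX} (hμ : μ ∈ S.MX) {ν : S.TY} (hν : ν ∈ S.MY)
    {q : ℕ} (hq : 0 < q) (hc : (S.prY id ν).Coprime (T.l * S.prX id μ * q)) (r : ℕ) :
    |(mX S T u).cl μ ν q r - (mX S T u).ms μ ν * (1 / (q : ℝ))| ≤ 1 := by
  have hX : 0 < S.prX id μ := Nat.pos_of_ne_zero (H.sets.sqX μ hμ).ne_zero
  have hY : 0 < S.prY id ν := Nat.pos_of_ne_zero (H.sets.sqY ν hν).ne_zero
  have hm : 0 < T.l * S.prX id μ := Nat.mul_pos H.l0 hX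
  rw [Mx_cl ν q r hm, Mx_ms]
  obtain ⟨c, hcc⟩ := Mx_one (T := T) (u := u) (by have := H.Dh; omega) hY hc r
  have h1 : (Ioc u (2 * u)).filter (fun X => X ≡ T.l * S.prX id μ * r [MOD T.l * S.prX id μ * q] ∧ S.prY id ν ∣ T.Y X) =
      (Ioc u (2 * u)).filter (fun X => X ≡ c [MOD T.l * S.prX id μ * q * S.prY id ν]) :=
    filter_congr fun X hX => hcc X (mem_Ioc.1 hX).1
  rw [h1]
  have h2 := Mx_cnt (u := u) (M := T.l * S.prX id μ * q * S.prY id ν) (by positivity) c
  have h3 : (u : ℝ) / ((T.l * S.prX id μ * S.prY id ν : ℕ) : ℝ) * (1 / (q : ℝ)) = (u : ℝ) / ((T.l * S.prX id μ * q * S.prY id ν : ℕ) : ℝ) := by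
    rw [div_mul_div_comm, mul_one]
    push_cast
    congr 1
    ring
  rw [h3]
  exact h2

private theorem Mx_zero {S : MS} {T : TTC.Dat} {u : ℕ} {δ1 : ℝ} (H : HM S T u δ1) {μ : S.TX} (hμ : μ ∈ S.MX) {ν : S.TY} (hν : ν ∈ S.MY)
    (hc : ¬ (S.prY id ν).Coprime (T.l * S.prX id μ)) (q r : ℕ) : (mX S T u).cl μ ν q r = 0 := by
  classical
  have hX : 0 < S.prX id μ := Nat.pos_of_ne_zero (H.sets.sqX μ hμ).ne_zero
  have hm : 0 < T.l * S.prX id μ := Nat.mul_pos H.l0 hX
  rw [Mx_cl ν q r hm, Nat.cast_eq_zero, card_eq_zero, filter_eq_empty_iff]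
  rintro X hX' ⟨h1, h2⟩
  rw [mem_Ioc] at hX'
  obtain ⟨p, hp, h3, h4⟩ := Nat.Prime.not_coprime_iff_dvd.1 hc
  have hpy := H.sets.pY ν hν p hp h3
  have h5 : p ∣ X := by
    have h6 : X ≡ T.l * S.prX id μ * r [MOD T.l * S.prX id μ] := h1.of_dvd (dvd_mul_right _ _)
    exact h4.trans ((h6.dvd_iff dvd_rfl).2 (dvd_mul_right _ _))
  have h6 : p ∣ T.Y X := h3.trans h2
  have h7 : (T.D : ℤ) * T.h < X := by
    have h2 : (T.D : ℤ) * T.h ≤ ((T.D * T.h.natAbs : ℕ) : ℤ) := by
      push_cast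
      exact mul_le_mul_of_nonneg_left (le_abs_self _) (Nat.cast_nonneg _)
    have h3 : ((T.D * T.h.natAbs : ℕ) : ℤ) < X := by
      have := H.Dh
      exact_mod_cast (by omega : T.D * T.h.natAbs < X)
    linarith
  have h8 : (p : ℤ) ∣ (T.D : ℤ) * T.h := by
    have h9 : (p : ℤ) ∣ (X : ℤ) - T.D * T.h := by
      rw [← T.Y_cast h7]
      exact_mod_cast h6
    have h10 : (p : ℤ) ∣ (X : ℤ) := by exact_mod_cast h5
    have := dvd_sub h10 h9
    rwa [sub_sub_cancel] at this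
  have h9 : p ∣ T.D * T.h.natAbs := by
    have h10 := Int.natAbs_dvd_natAbs.2 h8
    rw [Int.natAbs_mul, Int.natAbs_natCast, Int.natAbs_natCast] at h10
    exact h10
  have := H.dd p hp h9
  omega

theorem mX_ok {S : MS} {T : TTC.Dat} {u : ℕ} {δ0 δ1 : ℝ} (W0 : ℕ) (H : HM S T u δ1) : (mX S T u).OK3 T W0 δ0 δ1 := by
  classical
  have hl : (0 : ℝ) < T.l := by exact_mod_cast H.l0
  have hu : 0 < u := by have := H.Dh; omega
  have hur : (0 : ℝ) < u := by exact_mod_cast hu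
  have her : (1 : ℝ) ≤ (T.N : ℝ) ^ (-δ1) * (mX S T u).W := H.er
  have hOm : ∀ (μ : S.TX) (ν : S.TY) (n : ℕ), (mX S T u).Om μ ν n ≠ 0 →
      u < T.l * S.prX id μ * n ∧ T.l * S.prX id μ * n ≤ 2 * u ∧ S.prY id ν ∣ T.Y (T.l * S.prX id μ * n) := by
    intro μ ν n hne
    by_contra hc
    exact hne (if_neg hc)
  have hms : ∀ (μ : S.TX) (ν : S.TY), 0 ≤ (mX S T u).ms μ ν := by
    intro μ ν
    rw [Mx_ms]
    positivity
  have hlX : ∀ μ ∈ S.MX, ∀ ν ∈ S.MY, (S.prX id μ).Coprime (S.prY id ν) → (S.prY id ν).Coprime (T.l * S.prX id μ) := by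
    intro μ _ ν hν hc
    refine Nat.Coprime.mul_right ?_ hc.symm
    refine Nat.coprime_of_dvd fun p hp h1 h2 => ?_
    have h3 := H.sets.pY ν hν p hp h1
    have h4 := H.ly p hp h2
    omega
  exact
    { W_pos := div_pos hur hl
      v_pos := H.l0
      v_le := H.lN
      v_l := rfl
      tau_eq := fun _ _ => rfl
      x0_eq := rfl
      Om_nonneg := by
        intro μ ν n
        show (0 : ℝ) ≤ if _ then 1 else 0
        split_ifs
        · exact zero_le_one
        · exact le_rfl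
      nm_bd := by
        intro μ ν n hne
        obtain ⟨h1, h2, -⟩ := hOm μ ν n hne
        show n ≤ 2 * u
        have h3 : 0 < T.l * S.prX id μ := by
          rcases Nat.eq_zero_or_pos (T.l * S.prX id μ) with h4 | h4
          · rw [h4, zero_mul] at h1
            omega
          · exact h4
        exact (Nat.le_mul_of_pos_left n h3).trans h2
      nm_le := by
        show 2 * u ≤ T.N ^ 3
        have h1 := H.uN
        have h2 := H.N2
        calc 2 * u ≤ T.N * T.N := Nat.mul_le_mul h2 h1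
          _ = T.N ^ 2 := (sq _).symm
          _ ≤ T.N ^ 3 := Nat.pow_le_pow_right (by omega) (by norm_num)
      X_eq := by
        intro μ ν n _
        show ((T.l * S.prX id μ * n : ℕ) : ℤ) = (T.l : ℤ) * ((S.prX id μ : ℕ) : ℤ) * n + 0
        push_cast
        ring
      X_dvd := by
        intro μ ν n _
        show S.prX id μ ∣ T.l * S.prX id μ * n
        exact (dvd_mul_left _ _).mul_right n
      Y_dvd := fun μ ν n hne => (hOm μ ν n hne).2.2
      Y_lo := by
        intro μ ν n hne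
        obtain ⟨h1, -, -⟩ := hOm μ ν n hne
        show 4 * (T.D * T.h.natAbs) < T.Y (T.l * S.prX id μ * n)
        have h2 := H.Dh
        obtain ⟨X, hX⟩ : ∃ X, X = T.l * S.prX id μ * n := ⟨_, rfl⟩
        rw [← hX] at h1 ⊢
        have h4 : (T.D : ℤ) * T.h ≤ ((T.D * T.h.natAbs : ℕ) : ℤ) := by
          push_cast
          exact mul_le_mul_of_nonneg_left (le_abs_self _) (Nat.cast_nonneg _)
        unfold TTC.Dat.Y
        omega
      X_le := by
        intro μ ν n hne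
        obtain ⟨-, h1, -⟩ := hOm μ ν n hne
        show T.l * S.prX id μ * n ≤ T.N ^ 2
        have h2 := H.uN
        have h3 := H.N2
        calc T.l * S.prX id μ * n ≤ 2 * u := h1
          _ ≤ T.N * T.N := Nat.mul_le_mul h3 h2
          _ = T.N ^ 2 := (sq _).symm
      hX_nonneg := by
        intro p _
        show 0 ≤ 1 / (p : ℝ) ∧ |1 / (p : ℝ) - 1 / p| ≤ 2 / (p : ℝ) ^ 2
        rw [sub_self, abs_zero]
        exact ⟨by positivity, by positivity⟩
      hY_nonneg := by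
        intro p _
        show 0 ≤ 1 / (p : ℝ) ∧ |1 / (p : ℝ) - 1 / p| ≤ 2 / (p : ℝ) ^ 2
        rw [sub_self, abs_zero]
        exact ⟨by positivity, by positivity⟩
      hY_win := by
        intro i l _
        show 0 ≤ 1 / (l : ℝ) ∧ |1 / (l : ℝ) - 1 / l| ≤ 2 / ((l : ℝ) * T.y0)
        rw [sub_self, abs_zero]
        exact ⟨by positivity, by positivity⟩
      g_small := fun p _ _ => ⟨fun _ => rfl, fun ht => ht.elim⟩
      g_large := by
        intro p _ _
        show 0 ≤ 1 / (p : ℝ) ∧ |1 / (p : ℝ) - 1 / p| ≤ 2 / (p : ℝ) ^ 2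
        rw [sub_self, abs_zero]
        exact ⟨by positivity, by positivity⟩
      t2_f := fun h => h
      up := by
        intro μ hμ ν hν
        have h0 := hms μ ν
        by_cases hc : (S.prY id ν).Coprime (T.l * S.prX id μ)
        · have h1 := Mx_eval H hμ hν (q := 1) one_pos (by rw [mul_one]; exact hc) 0
          rw [Nat.cast_one, div_one, mul_one] at h1
          have h2 := (abs_le.1 h1).2
          linarith
        · rw [Mx_zero H hμ hν hc]
          linarith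
      eq := by
        intro μ hμ ν hν ha q hq _ hq2 r _
        have hY : (S.prY id ν).Coprime (T.l * S.prX id μ * q) :=
          Nat.Coprime.mul_right (hlX μ hμ ν hν ha.2) (Nat.Coprime.coprime_dvd_left (dvd_mul_left _ _) hq2.symm)
        rw [Mx_gq hq]
        exact (Mx_eval H hμ hν (Nat.pos_of_ne_zero hq.ne_zero) hY r).trans her
      eq2 := by
        intro μ hμ ν hν ha p hp hpd r
        have hpp : p.Prime := by
          unfold TTC.Dat.PL at hp
          rw [mem_filter] at hp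
          exact hp.2.1
        have hpy : T.y0 < p := by
          unfold TTC.Dat.PL at hp
          rw [mem_filter] at hp
          exact hp.2.2
        have hp0 : (0 : ℝ) < p := by exact_mod_cast hpp.pos
        have hc := hlX μ hμ ν hν ha.2
        have h0 := hms μ ν
        have h40 : (mX S T u).ms μ ν * (1 / (p : ℝ)) ≤ 4 / p * (mX S T u).ms μ ν := by
          have e2 : 4 / (p : ℝ) * (mX S T u).ms μ ν = (mX S T u).ms μ ν * (1 / p) + 3 * ((mX S T u).ms μ ν * (1 / p)) := by ring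
          rw [e2]
          have : 0 ≤ (mX S T u).ms μ ν * (1 / p) := by positivity
          linarith
        show (if p ∣ S.prX id μ then (mX S T u).cl μ ν p r else (mX S T u).cl μ ν (p ^ 2) r) ≤ _
        split_ifs with hpX
        · have hpY : ¬ p ∣ S.prY id ν := by
            intro h1
            have h2 := Nat.dvd_gcd hpX h1
            have h3 : Nat.gcd (S.prX id μ) (S.prY id ν) = 1 := ha.2
            rw [h3] at h2
            exact hpp.one_lt.ne' (Nat.dvd_one.1 h2)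
          have h1 := Mx_eval H hμ hν (q := p) hpp.pos
            (Nat.Coprime.mul_right hc ((Nat.Prime.coprime_iff_not_dvd hpp).2 hpY).symm) r
          have h2 := (abs_le.1 h1).2
          linarith
        · have hpY : p ∣ S.prY id ν := by
            rcases (Nat.Prime.dvd_mul hpp).1 hpd with h1 | h1
            · exact absurd h1 hpX
            · exact h1
          have hX : 0 < S.prX id μ := Nat.pos_of_ne_zero (H.sets.sqX μ hμ).ne_zero
          have hY : 0 < S.prY id ν := Nat.pos_of_ne_zero (H.sets.sqY ν hν).ne_zero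
          have hm : 0 < T.l * S.prX id μ := Nat.mul_pos H.l0 hX
          obtain ⟨ν', hν'⟩ := hpY
          have hsq := H.sets.sqY ν hν
          rw [hν'] at hsq
          have hν0 : 0 < ν' := by
            rcases Nat.eq_zero_or_pos ν' with h1 | h1
            · rw [h1, mul_zero] at hν'
              omega
            · exact h1
          have hcp : p.Coprime ν' := (Nat.squarefree_mul_iff.1 hsq).1
          have hc1 : ν'.Coprime (T.l * S.prX id μ * p ^ 2) := by
            refine Nat.Coprime.mul_right ?_ (Nat.Coprime.pow_right 2 hcp.symm)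
            rw [hν'] at hc
            exact Nat.Coprime.coprime_dvd_left (dvd_mul_left _ _) hc
          obtain ⟨c, hcc⟩ := Mx_one (T := T) (u := u) (by have := H.Dh; omega) hν0 hc1 r
          rw [Mx_cl ν (p ^ 2) r hm]
          have h1 : (((Ioc u (2 * u)).filter fun X => X ≡ T.l * S.prX id μ * r [MOD T.l * S.prX id μ * p ^ 2] ∧ S.prY id ν ∣ T.Y X).card : ℝ) ≤
              (((Ioc u (2 * u)).filter fun X => X ≡ c [MOD T.l * S.prX id μ * p ^ 2 * ν']).card : ℝ) := by
            rw [Nat.cast_le]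
            refine card_le_card fun X hX => ?_
            rw [mem_filter] at hX ⊢
            refine ⟨hX.1, (hcc X (mem_Ioc.1 hX.1).1).1 ⟨hX.2.1, ?_⟩⟩
            exact (Dvd.intro_left p hν'.symm).trans hX.2.2
          have h2 := (abs_le.1 (Mx_cnt (u := u) (M := T.l * S.prX id μ * p ^ 2 * ν') (by have := hpp.pos; positivity) c)).2
          have h3 : (u : ℝ) / ((T.l * S.prX id μ * p ^ 2 * ν' : ℕ) : ℝ) = (mX S T u).ms μ ν * (1 / p) := by
            rw [Mx_ms, hν', div_mul_div_comm, mul_one]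
            push_cast
            congr 1
            ring
          rw [h3] at h2
          linarith }

end Pool.Agent.Lib.TTD
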