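import Pool.Agent.Lib.MP_092512_nt.TT.D.Mx

/-!
# TTD / Pr (40 minutes): the pairs without a common good cycle

PROOF. For `(μ, ν)` not bad: `q ↦ (q.1 / (l prX), q.2 / (l prX))` maps the pairs injectively to pairs `(n, n')` with `n, n' ≤ nm = 2 u`, `Om = 1` (`X = l prX n` because `l ∣ X` (`CR`), `prX ∣ X`, coprime by `H.sets.pX`, `H.ly`), and the summand of `Wbad2` is `(m1)⁻¹ = prX prY` (`mX_m1`). For bad `(μ, ν)` the set `A μ ν` is empty. All summands are `≥ 0`.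
Then `hP (mX ..) (mX ..) (mX_ok ..)`, `mX_tot`, `(mX S T u).W = u / l`. Model: `MP_7b7e48_nt/T3D/Pr.lean`.
-/

set_option autoImplicit false

open Finset

namespace Pool.Agent.Lib.TTD

open Pool.Agent.Lib.TTC (MS Msr)
open Pool.Agent.Lib.TCF (TUP rho)
open Pool.Agent.Lib.RG (Rough)
open Pool.Agent.Lib.MP_45349e_nt.LS (lam)

open Classical in
/-- the weight of a pair of numbers -/
private noncomputable def Pr_C (S : MS) (T : TTC.Dat) (W0 : ℕ) (μ : S.TX) (ν : S.TY) (X X' : ℕ) : ℝ :=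
  if CR T X ∧ CR T X' ∧ (T.Y X ≡ T.yc [MOD W0 ^ T.r] ∧ T.Y X' ≡ T.yc [MOD W0 ^ T.r]) ∧ ¬ S.Linked2 T μ ν X X' then 1 else 0

private theorem Pr_C_nonneg (S : MS) (T : TTC.Dat) (W0 : ℕ) (μ : S.TX) (ν : S.TY) (X X' : ℕ) : 0 ≤ Pr_C S T W0 μ ν X X' := by
  unfold Pr_C
  split_ifs
  · exact zero_le_one
  · exact le_rfl

private theorem Pr_Om_nonneg (S : MS) (T : TTC.Dat) (u : ℕ) (μ : S.TX) (ν : S.TY) (n : ℕ) : 0 ≤ (mX S T u).Om μ ν n := by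
  show (0 : ℝ) ≤ if _ then 1 else 0
  split_ifs
  · exact zero_le_one
  · exact le_rfl

/-- the numbers of the sets `A μ ν` -/
private theorem Pr_fac {S : MS} {T : TTC.Dat} {u : ℕ} {δ1 : ℝ} (H : HM S T u δ1) {μ : S.TX} (hμ : μ ∈ S.MX) {ν : S.TY} {X : ℕ}
    (h : u < X ∧ X ≤ 2 * u ∧ S.prX id μ ∣ X ∧ S.prY id ν ∣ T.Y X ∧ CR T X) :
    X / (T.l * S.prX id μ) ≤ 2 * u ∧ T.l * S.prX id μ * (X / (T.l * S.prX id μ)) = X ∧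
      (mX S T u).Om μ ν (X / (T.l * S.prX id μ)) = 1 := by
  obtain ⟨h1, h2, h3, h4, h5⟩ := h
  obtain ⟨X', hX', _⟩ := h5.1
  have hcop : (S.prX id μ).Coprime T.l := by
    apply Nat.Coprime.symm
    rw [Nat.coprime_iff_gcd_eq_one]
    by_contra hg
    obtain ⟨p, hp, hpd⟩ := Nat.exists_prime_and_dvd hg
    have e1 := H.ly p hp (hpd.trans (Nat.gcd_dvd_left _ _))
    have e2 := H.sets.pX μ hμ p hp (hpd.trans (Nat.gcd_dvd_right _ _))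
    omega
  rw [hX'] at h3
  obtain ⟨n, hn⟩ := hcop.dvd_of_dvd_mul_left h3
  have hX : X = T.l * S.prX id μ * n := by rw [hX', hn, mul_assoc]
  have hpos : 0 < T.l * S.prX id μ := by
    rcases Nat.eq_zero_or_pos (T.l * S.prX id μ) with h0 | h0
    · rw [h0, zero_mul] at hX
      omega
    · exact h0
  have hdiv : X / (T.l * S.prX id μ) = n := by
    rw [hX]
    exact Nat.mul_div_cancel_left n hpos
  rw [hdiv]
  refine ⟨?_, hX.symm, ?_⟩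
  · calc n ≤ T.l * S.prX id μ * n := Nat.le_mul_of_pos_left n hpos
      _ = X := hX.symm
      _ ≤ 2 * u := h2
  · show (if u < T.l * S.prX id μ * n ∧ T.l * S.prX id μ * n ≤ 2 * u ∧ S.prY id ν ∣ T.Y (T.l * S.prX id μ * n) then (1 : ℝ) else 0) = 1
    rw [if_pos]
    rw [← hX]
    exact ⟨h1, h2, h4⟩

open Classical in
private theorem Pr_count {S : MS} {T : TTC.Dat} {W0 u : ℕ} {δ1 : ℝ} (H : HM S T u δ1) {μ : S.TX} (hμ : μ ∈ S.MX) {ν : S.TY} (A B : Finset ℕ)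
    (hA : ∀ X ∈ A, u < X ∧ X ≤ 2 * u ∧ S.prX id μ ∣ X ∧ S.prY id ν ∣ T.Y X ∧ CR T X)
    (hB : ∀ X ∈ B, u < X ∧ X ≤ 2 * u ∧ S.prX id μ ∣ X ∧ S.prY id ν ∣ T.Y X ∧ CR T X)
    (hAB : ∀ X ∈ A, ∀ X' ∈ B, T.Y X ≡ T.yc [MOD W0 ^ T.r] ∧ T.Y X' ≡ T.yc [MOD W0 ^ T.r]) :
    (((A ×ˢ B).filter fun q => ¬ S.Linked2 T μ ν q.1 q.2).card : ℝ) ≤
      ∑ n ∈ range ((mX S T u).nm + 1), ∑ n' ∈ range ((mX S T u).nm + 1),
        (mX S T u).Om μ ν n * (mX S T u).Om μ ν n' * Pr_C S T W0 μ ν ((mX S T u).X μ ν n) ((mX S T u).X μ ν n') := by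
  obtain ⟨F, hF⟩ : ∃ F, F = (A ×ˢ B).filter fun q => ¬ S.Linked2 T μ ν q.1 q.2 := ⟨_, rfl⟩
  rw [← hF]
  obtain ⟨ψ, hψ⟩ : ∃ ψ : ℕ → ℕ, ψ = fun X => X / (T.l * S.prX id μ) := ⟨_, rfl⟩
  obtain ⟨f, hf⟩ : ∃ f : ℕ × ℕ → ℝ, f = fun q => (mX S T u).Om μ ν q.1 * (mX S T u).Om μ ν q.2 *
      Pr_C S T W0 μ ν ((mX S T u).X μ ν q.1) ((mX S T u).X μ ν q.2) := ⟨_, rfl⟩
  have hf0 : ∀ q, 0 ≤ f q := by
    intro q
    rw [hf]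
    exact mul_nonneg (mul_nonneg (Pr_Om_nonneg _ _ _ _ _ _) (Pr_Om_nonneg _ _ _ _ _ _)) (Pr_C_nonneg _ _ _ _ _ _ _)
  have hX : ∀ n, (mX S T u).X μ ν n = T.l * S.prX id μ * n := fun n => rfl
  have h1 : ∀ q ∈ F, (1 : ℝ) = f (ψ q.1, ψ q.2) := by
    intro q hq
    rw [hF, mem_filter, mem_product] at hq
    obtain ⟨⟨hqA, hqB⟩, hl⟩ := hq
    obtain ⟨a1, a2, a3⟩ := Pr_fac H hμ (hA q.1 hqA)
    obtain ⟨b1, b2, b3⟩ := Pr_fac H hμ (hB q.2 hqB)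
    rw [hf, hψ]
    show (1 : ℝ) = (mX S T u).Om μ ν (q.1 / (T.l * S.prX id μ)) * (mX S T u).Om μ ν (q.2 / (T.l * S.prX id μ)) *
      Pr_C S T W0 μ ν ((mX S T u).X μ ν (q.1 / (T.l * S.prX id μ))) ((mX S T u).X μ ν (q.2 / (T.l * S.prX id μ)))
    rw [hX, hX, a2, b2, a3, b3]
    unfold Pr_C
    rw [if_pos ⟨(hA q.1 hqA).2.2.2.2, (hB q.2 hqB).2.2.2.2, hAB q.1 hqA q.2 hqB, hl⟩]
    norm_num
  have hinj : Set.InjOn (fun q : ℕ × ℕ => (ψ q.1, ψ q.2)) F := by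
    intro q hq q' hq' he
    rw [Finset.mem_coe, hF, mem_filter, mem_product] at hq hq'
    obtain ⟨⟨hqA, hqB⟩, _⟩ := hq
    obtain ⟨⟨hqA', hqB'⟩, _⟩ := hq'
    have e1 : ψ q.1 = ψ q'.1 := congrArg Prod.fst he
    have e2 : ψ q.2 = ψ q'.2 := congrArg Prod.snd he
    rw [hψ] at e1 e2
    have a := (Pr_fac H hμ (hA q.1 hqA)).2.1
    have a' := (Pr_fac H hμ (hA q'.1 hqA')).2.1
    have b := (Pr_fac H hμ (hB q.2 hqB)).2.1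
    have b' := (Pr_fac H hμ (hB q'.2 hqB')).2.1
    have e1' : q.1 / (T.l * S.prX id μ) = q'.1 / (T.l * S.prX id μ) := e1
    have e2' : q.2 / (T.l * S.prX id μ) = q'.2 / (T.l * S.prX id μ) := e2
    rw [e1'] at a
    rw [e2'] at b
    exact Prod.ext (a.symm.trans a') (b.symm.trans b')
  have h2 : (F.card : ℝ) = ∑ q ∈ F.image (fun q : ℕ × ℕ => (ψ q.1, ψ q.2)), f q := by
    rw [sum_image hinj, ← sum_congr rfl h1, sum_const, nsmul_eq_mul, mul_one]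
  rw [h2]
  have h3 : F.image (fun q : ℕ × ℕ => (ψ q.1, ψ q.2)) ⊆ range ((mX S T u).nm + 1) ×ˢ range ((mX S T u).nm + 1) := by
    intro p hp
    rw [mem_image] at hp
    obtain ⟨q, hq, rfl⟩ := hp
    rw [hF, mem_filter, mem_product] at hq
    obtain ⟨⟨hqA, hqB⟩, _⟩ := hq
    have a := (Pr_fac H hμ (hA q.1 hqA)).1
    have b := (Pr_fac H hμ (hB q.2 hqB)).1
    rw [mem_product, mem_range, mem_range, hψ]
    exact ⟨Nat.lt_succ_of_le a, Nat.lt_succ_of_le b⟩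
  refine (sum_le_sum_of_subset_of_nonneg h3 fun q _ _ => hf0 q).trans (le_of_eq ?_)
  rw [sum_product, hf]

open Classical in
/-- one summand of `Wbad2` -/
private noncomputable def Pr_W (S : MS) (T : TTC.Dat) (W0 y1 : ℕ) (M M' : Msr S) (μ : S.TX) (ν : S.TY) : ℝ :=
  if S.badpair T 0 y1 μ ν ∨ S.evp T μ ν then 0 else M.S2 M' μ ν fun n n' => Pr_C S T W0 μ ν (M.X μ ν n) (M'.X μ ν n')

private theorem Pr_W_eq (S : MS) (T : TTC.Dat) (W0 y1 : ℕ) (M M' : Msr S) :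
    Wbad2 M M' T (W0 ^ T.r) y1 = ∑ μ ∈ S.MX, ∑ ν ∈ S.MY, Pr_W S T W0 y1 M M' μ ν := by
  rfl

open Classical in
theorem pairs {S : MS} {T : TTC.Dat} {D : TT.Dat} {W0 y1 u : ℕ} {δ0 δ1 δ2 ε : ℝ} (H : HM S T u δ1) (hF : Fam4 S D) (hP : PLem2 S T W0 y1 δ0 δ1 δ2 ε)
    (A B : S.TX → S.TY → Finset ℕ)
    (hA : ∀ μ ∈ S.MX, ∀ ν ∈ S.MY, ∀ X ∈ A μ ν, u < X ∧ X ≤ 2 * u ∧ S.prX id μ ∣ X ∧ S.prY id ν ∣ T.Y X ∧ CR T X)
    (hB : ∀ μ ∈ S.MX, ∀ ν ∈ S.MY, ∀ X ∈ B μ ν, u < X ∧ X ≤ 2 * u ∧ S.prX id μ ∣ X ∧ S.prY id ν ∣ T.Y X ∧ CR T X)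
    (hb : ∀ μ ∈ S.MX, ∀ ν ∈ S.MY, S.badpair T 0 y1 μ ν ∨ S.evp T μ ν → A μ ν = ∅)
    (hAB : ∀ μ ∈ S.MX, ∀ ν ∈ S.MY, ∀ X ∈ A μ ν, ∀ X' ∈ B μ ν, T.Y X ≡ T.yc [MOD W0 ^ T.r] ∧ T.Y X' ≡ T.yc [MOD W0 ^ T.r]) :
    ∑ μ ∈ S.MX, ∑ ν ∈ S.MY, ((S.prX id μ * S.prY id ν : ℕ) : ℝ) *
      (((A μ ν ×ˢ B μ ν).filter fun q => ¬ S.Linked2 T μ ν q.1 q.2).card : ℝ) ≤
      (ε * (rho D.BX * rho D.BY) + (T.N : ℝ) ^ (-δ2)) * ((u : ℝ) / T.l) ^ 2 := by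
  have hkey : ∀ μ ∈ S.MX, ∀ ν ∈ S.MY, ((S.prX id μ * S.prY id ν : ℕ) : ℝ) *
      (((A μ ν ×ˢ B μ ν).filter fun q => ¬ S.Linked2 T μ ν q.1 q.2).card : ℝ) ≤ Pr_W S T W0 y1 (mX S T u) (mX S T u) μ ν := by
    intro μ hμ ν hν
    unfold Pr_W
    by_cases hbad : S.badpair T 0 y1 μ ν ∨ S.evp T μ ν
    · rw [if_pos hbad, hb μ hμ ν hν hbad, empty_product, filter_empty, card_empty, Nat.cast_zero, mul_zero]
    · rw [if_neg hbad]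
      have h1 := Pr_count (W0 := W0) H hμ (ν := ν) (A μ ν) (B μ ν) (hA μ hμ ν hν) (hB μ hμ ν hν) (hAB μ hμ ν hν)
      have hx : (0 : ℝ) ≤ ((S.prX id μ * S.prY id ν : ℕ) : ℝ) := Nat.cast_nonneg _
      have hm : ((mX S T u).m1 μ ν)⁻¹ = ((S.prX id μ * S.prY id ν : ℕ) : ℝ) := by
        rw [mX_m1, mul_inv, one_div, one_div, inv_inv, inv_inv]
        push_cast
        ring
      unfold Msr.S2
      rw [hm]
      exact mul_le_mul_of_nonneg_left h1 hx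
  refine (sum_le_sum fun μ hμ => sum_le_sum fun ν hν => hkey μ hμ ν hν).trans ?_
  rw [← Pr_W_eq]
  refine (hP (mX S T u) (mX S T u) (mX_ok W0 H) (mX_ok W0 H)).trans (le_of_eq ?_)
  rw [mX_tot hF]
  have hW : (mX S T u).W = (u : ℝ) / T.l := rfl
  rw [hW]
  ring

end Pool.Agent.Lib.TTD
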